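import Pool.Agent.W_448s14_h94.SgL
import Pool.Agent.W_448dd_h67.DdK

/-!
The types of the components at level 14, window 7; there is no element of level 15 below both ends
of a component `La7`.
-/

namespace Pool.Agent.GaussPoset.Sg

set_option linter.unusedSectionVars false

open Polynomial Finset Cl Dd Wd Cp

universe u

variable {P : Type u} [Fintype P] [PartialOrder P] [DecidableEq P] {r : ℕ}

/-- the lower bound of the costs from one element above of every level -/
lemma ct_ge {x : P} (hl : lev x = 14) (k : ℕ) :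
    ∑ l ∈ range 15, min k (l - 7) ≤ ct 7 k x := by
  unfold ct
  rw [cst_eq, hl]
  refine Finset.sum_le_sum fun l hl2 => ?_
  rw [mem_range] at hl2
  have := one_le_nab (z := x) (l := l) (by omega)
  calc min k (l - 7) = min k (l - 7) * 1 := (Nat.mul_one _).symm
    _ ≤ _ := Nat.mul_le_mul_left _ this

lemma ct_k (k : ℕ) (h : 4 ≤ k) : 26 ≤ (∑ l ∈ range 15, min k (l - 7)) + min k 8 := by
  have h1 : ∑ l ∈ range 15, min 4 (l - 7) ≤ ∑ l ∈ range 15, min k (l - 7) :=
    Finset.sum_le_sum fun l _ => by omega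
  have h2 : ∑ l ∈ range 15, min 4 (l - 7) = 22 := by decide
  omega

lemma rect_k : ∀ s < 15, 26 ≤ (∑ a ∈ range (s + 1),
    rowW false (fun k => min ((s - 7) + (14 - s - 7) + 1) (k - 7)) (14 - s) 14 a) +
      min ((s - 7) + (14 - s - 7) + 1) 8 := by decide +kernel

lemma stair_k : ∀ s < 8, 26 ≤ (∑ a ∈ range (s + 1),
    rowW true (fun k => min ((s - 6) + (14 - s - 7) + 1) (k - 7)) (14 - s) 14 a) +
      min ((s - 6) + (14 - s - 7) + 1) 8 := by decide +kernel

/-- the data of one component -/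
def Dat (t : Tops P) (b : ℕ) (lo hi : ℕ → ℕ) (e : ℕ → ℕ → P) (N : Finset P) (θ : P → ℕ)
    (B : P → Prop) : Prop :=
  Nt t b N θ B 9 ∧ ((Nt t b N θ B 26 ∧ ∀ x ≤ (t : P), lev x = 14 → θ x = 0 → Thin x →
    ∀ y ≤ (t : P), lev y = 14 → y = x) ∨
    (WordD 14 7 wa7 lo hi ∧ b = 2 ∧ θ (ce e 29) = 0 ∧ Thin (ce e 29)))

lemma Nt.weak {t : Tops P} {b c c' : ℕ} {N : Finset P} {θ : P → ℕ} {B : P → Prop}
    (h : Nt t b N θ B c) (hc : c' ≤ c) : Nt t b N θ B c' :=
  ⟨h.nt, h.strip, h.base, fun x hx hl => (h.cost x hx hl).imp_left fun g => hc.trans g, h.one⟩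

lemma dat_nat {t : Tops P} {b : ℕ} {lo hi : ℕ → ℕ} {e : ℕ → ℕ → P} {N : Finset P} {θ : P → ℕ}
    {B : P → Prop} (h1 : NatTop 7 t b N θ B) (h2 : lowPart 14 (t : P) ⊆ N)
    (h3 : ∀ x ∈ N, B x → lev x ≤ 14)
    (h4 : ∀ x ≤ (t : P), lev x = 14 → 26 ≤ ct 7 (θ x + 1) x + min (θ x + 1) 8)
    (h5 : 1 ≤ b) : Dat t b lo hi e N θ B := by
  have h6 : Nt t b N θ B 26 := ⟨h1, h2, h3, fun x hx hl => Or.inl (h4 x hx hl), h5⟩
  refine ⟨h6.weak (by norm_num), Or.inl ⟨h6, ?_⟩⟩
  intro x hx hl h0 ht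
  exfalso
  have h7 := h4 x hx hl
  rw [h0] at h7
  unfold ct at h7
  rw [cst_eq, hl] at h7
  simp only [Finset.sum_range_succ, Finset.sum_range_zero] at h7
  have g := ht.1
  rw [g 8 (by omega) (by omega), g 9 (by omega) (by omega), g 10 (by omega) (by omega),
    g 11 (by omega) (by omega), g 12 (by omega) (by omega), g 13 (by omega) (by omega),
    g 14 (by omega) (by omega)] at h7
  norm_num at h7

section Types

variable {t : Tops P} {lo hi : ℕ → ℕ} {e : ℕ → ℕ → P}

/-- light components -/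
lemma t7_light (h : Win.GoodTo P r 14) (C : Comp 14 (t : P) lo hi e) (h1 : hi 7 = lo 7) :
    ∃ N θ B, Dat t (hi 7 - lo 7 + 1) lo hi e N θ B := by
  refine ⟨_, _, _, dat_nat (N := onlyB t) (θ := fun x => lev x - 7) (B := fun _ => False) ?_ ?_ ?_
    ?_ (by omega)⟩
  · rw [h1, Nat.sub_self, Nat.zero_add]
    exact natTop_light h.H.gradedBelow (fun x hx hxi => only_low h x hx (by omega))
      ⟨e 7 (lo 7), C.le_t 7 (lo 7) (by omega) le_rfl (C.lo_le 7 (by omega)),
        C.lev_e 7 (lo 7) (by omega) le_rfl (C.lo_le 7 (by omega))⟩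
  · intro x hx
    rw [mem_lowPart] at hx
    exact only_low h x hx.1 hx.2
  · intro x _ hx
    exact absurd hx id
  · intro x _ hl
    have h2 := ct_ge hl (lev x - 7 + 1)
    have h3 := ct_k (lev x - 7 + 1) (by omega)
    show 26 ≤ ct 7 (lev x - 7 + 1) x + min (lev x - 7 + 1) 8
    omega

/-- rectangles -/
lemma t7_rect (h : Win.GoodTo P r 14) (C : Comp 14 (t : P) lo hi e) (S : RectShape 14 lo hi)
    (hlt : lo 7 < hi 7) : ∃ N θ B, Dat t (hi 7 - lo 7 + 1) lo hi e N θ B := by
  obtain ⟨Nc, co, h2, -⟩ := exists_rect C h.H h.good h.H.gradedBelow S (i := 7) le_rfl hlt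
  have hb := h2.b_le
  refine ⟨_, _, _, dat_nat (h2.natTop h.H.gradedBelow (by omega)) ?_ ?_ ?_ (by omega)⟩
  · exact fun x hx => mem_natR.mpr (Or.inl (h2.strip hx))
  · rintro x - ⟨hx, hcx⟩
    have := h2.chart.lev x hx
    rw [hcx] at this
    simp only at this
    omega
  · intro x hxt hl
    have hx : x ∈ Nc := h2.strip (mem_lowPart.mpr ⟨hxt, hl.le⟩)
    have hcl := h2.chart.lev x hx
    have h2' := ct_ge hl (thR 7 (hi 7 - lo 7 + 1) Nc co x + 1)
    by_cases hJ : x ∈ junk (fun _ => True) Nc co ∨ x ∈ junk (fun _ => True) Nc (swp co)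
    · have h4 : thR 7 (hi 7 - lo 7 + 1) Nc co x = 7 := by
        unfold thR
        rw [if_pos hJ]
        omega
      rw [h4] at h2' ⊢
      have h3 := ct_k (7 + 1) (by omega)
      omega
    · have h4 : thR 7 (hi 7 - lo 7 + 1) Nc co x = ((co x).1 - 7) + ((co x).2 - 7) := by
        unfold thR
        rw [if_neg hJ]
        rcases h2.rows with h3 | h3
        · omega
        · have := h3 x hx
          omega
      have h5 := rect_k (co x).1 (by omega)
      have h6 := ct_chart h2.chart (shift := false) (by simp) hx 7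
        (((co x).1 - 7) + ((co x).2 - 7) + 1)
      rw [hl, show (co x).2 = 14 - (co x).1 by omega] at h6
      rw [h4, show (co x).2 = 14 - (co x).1 by omega, h6]
      exact h5

/-- stairs -/
lemma t7_stair (h : Win.GoodTo P r 14) (C : Comp 14 (t : P) lo hi e) (S : StairShape 14 lo hi) :
    ∃ N θ B, Dat t (hi 7 - lo 7 + 1) lo hi e N θ B := by
  obtain ⟨Nc, co, h2, -⟩ := exists_stair C h.H h.good h.H.gradedBelow S (i := 7) le_rfl
  have e1 := S.hi 7 (by omega)
  have e2 := stair_lo (m := 7) C S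
  have hb : hi 7 - lo 7 + 1 = 7 / 2 + 1 := by omega
  rw [hb]
  refine ⟨_, _, _, dat_nat (h2.natTop h.H.gradedBelow (by omega) (by omega)) ?_ ?_ ?_ (by omega)⟩
  · exact fun x hx => mem_natS.mpr (Or.inl (h2.strip hx))
  · rintro x - ⟨hx, hcx⟩
    have := h2.chart.lev x hx
    rw [hcx] at this
    simp only at this
    omega
  · intro x hxt hl
    have hx : x ∈ Nc := h2.strip (mem_lowPart.mpr ⟨hxt, hl.le⟩)
    have hcl := h2.chart.lev x hx
    have hS : (co x).1 ≤ (co x).2 := h2.chart.mem x hx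
    have h2' := ct_ge hl (thS 7 Nc co x + 1)
    by_cases hJ : x ∈ junk (fun c => c.1 ≤ c.2) Nc co
    · have h4 : thS 7 Nc co x = 7 := by
        unfold thS
        rw [if_pos hJ]
        omega
      rw [h4] at h2' ⊢
      have h3 := ct_k (7 + 1) (by omega)
      omega
    · have h4 : thS 7 Nc co x = ((co x).1 - 6) + ((co x).2 - 7) := by
        unfold thS
        rw [if_neg hJ]
      have h5 := stair_k (co x).1 (by omega)
      have h6 := ct_chart h2.chart (shift := true) (by simp) hx 7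
        (((co x).1 - 6) + ((co x).2 - 7) + 1)
      rw [hl, show (co x).2 = 14 - (co x).1 by omega] at h6
      rw [h4, show (co x).2 = 14 - (co x).1 by omega, h6]
      exact h5

/-- quadrics -/
lemma t7_quad (h : Win.GoodTo P r 14) (C : Comp 14 (t : P) lo hi e) (Q : QRows 14 7 lo hi) :
    ∃ N θ B, Dat t (hi 7 - lo 7 + 1) lo hi e N θ B := by
  classical
  have hQ : QInf 7 7 t := Q.inf (m := 7) C (by omega)
  have e1 := Q.at'
  have hup : ∀ x ∈ lowPart (2 * 7) (t : P), ∀ y, x ≤ y → y ∈ lowPart (2 * 7) (t : P) := by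
    intro x hx y hxy
    rw [mem_lowPart] at hx ⊢
    refine ⟨Cp.up_le h.H h.good t.2 hx.1 hx.2 hxy, ?_⟩
    rcases eq_or_lt_of_le hxy with h | h
    · rw [← h]; exact hx.2
    · have := lev_strictAnti h; omega
  have hb : hi 7 - lo 7 + 1 = 2 := by omega
  rw [hb]
  have hN := natTop_quad (m := 7) (by omega) (dvd_W_Qd 7) hQ hup
  have h6 : Nt t 2 (lowPart (2 * 7) (t : P)) (fun _ => 0)
      (fun x => x ∈ lowPart (2 * 7) (t : P)) 26 := by
    refine ⟨hN, fun x hx => hx, fun x hx _ => (mem_lowPart.mp hx).2, ?_, by norm_num⟩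
    intro x hxt hl
    right
    have hn : ∀ k, k ≤ 14 → nab k x = if k = 7 then 2 else 1 := by
      intro k hk
      rw [← hQ.cn k hk]
      unfold nab cn
      congr 1
      ext y
      rw [mem_filter, mem_filter, mem_lv]
      refine and_congr_right fun h1 => ⟨fun h2 => ?_, fun h2 => ?_⟩
      · exact Cp.up_le h.H h.good t.2 hxt hl.le h2
      · exact hQ.bot x hxt hl y h2 (by omega)
    refine ⟨rfl, fun k hk1 hk2 => ?_, ?_⟩
    · rw [hn k hk2, if_neg (by omega)]
    · rw [hn 7 (by omega), if_pos rfl]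
  exact ⟨_, _, _, h6.weak (by norm_num), Or.inl ⟨h6, fun x hx hl _ _ y hy hly =>
    hQ.unique hy hx hly hl⟩⟩

/-- `E7` -/
lemma t7_seven (h : Win.GoodTo P r 14) (C : Comp 14 (t : P) lo hi e) (D : WordD 14 4 w7 lo hi) :
    ∃ N θ B, Dat t (hi 7 - lo 7 + 1) lo hi e N θ B := by
  obtain ⟨h1, h2⟩ := D.rows C
  have hb : hi 7 - lo 7 + 1 = 2 := by
    rw [h1 7 (by omega), h2 7 (by omega)]
    decide +kernel
  rw [hb]
  have hN := natTop_E7 D C h.H h.good h.H.gradedBelow (i := 7) (by omega) (by omega) (by omega)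
    (by omega)
  have hr := row7 7 (by omega) (by omega)
  rw [← h1 (7 + 4) (by omega), ← h2 (7 + 4) (by omega)] at hr
  refine ⟨_, _, _, dat_nat hN (Subset.refl _) ?_ ?_ (by omega)⟩
  · intro x hx _
    exact (mem_lowPart.mp hx).2
  · intro x _ hl
    have h2 := ct_ge hl (lev x - (7 + 4) + 1)
    have h3 := ct_k (lev x - (7 + 4) + 1) (by omega)
    show 26 ≤ ct 7 (lev x - (7 + 4) + 1) x + min (lev x - (7 + 4) + 1) 8
    omega

/-- `La7` -/
lemma t7_la (h : Win.GoodTo P r 14) (C : Comp 14 (t : P) lo hi e) (D : WordD 14 7 wa7 lo hi) :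
    ∃ N θ B, Dat t (hi 7 - lo 7 + 1) lo hi e N θ B ∧ θ (ce e 29) = 0 ∧ Thin (ce e 29) := by
  obtain ⟨h1, h2⟩ := D.rows C
  have hb : hi 7 - lo 7 + 1 = 2 := by
    rw [h1 7 (by omega), h2 7 (by omega)]
    decide +kernel
  rw [hb]
  have hN := natTopC_La7_7 D C h.H h.good le_rfl le_rfl
  have hcv : ∀ a < 30, La7cv.getD a 0 < 2 ^ a := La7_us.cv
  have hnab : ∀ k, nab k (ce e 29) = ((range 30).filter (fun b =>
      (La7um.getD 29 0).testBit b = true ∧ La7lv.getD b 0 = k)).card := fun k =>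
    strip_nab La7_strip C h.H h.good t.2 le_rfl h1 h2 hcv La7_um (a := 29) (by decide +kernel) k
  have hthin : Thin (ce e 29) := by
    have c1 : ∀ k < 15, 8 ≤ k → ((range 30).filter (fun b =>
        (La7um.getD 29 0).testBit b = true ∧ La7lv.getD b 0 = k)).card = 1 := by decide +kernel
    have c2 : ((range 30).filter (fun b =>
        (La7um.getD 29 0).testBit b = true ∧ La7lv.getD b 0 = 7)).card = 2 := by decide +kernel
    exact ⟨fun k hk1 hk2 => (hnab k).trans (c1 k (by omega) hk1), (hnab 7).trans c2⟩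
  have hth : ∀ a < 30, thC lo hi e La7t7 (ce e a) = La7t7 (La7lv.getD a 0) (La7sl.getD a 0) := by
    intro a ha
    have h3 := La7_strip.row a ha
    have h4 : La7lv.getD a 0 ≤ 14 := by
      have h : ∀ a < 30, La7lv.getD a 0 ≤ 14 := by decide +kernel
      exact h a ha
    rw [← h1 _ h4, ← h2 _ h4] at h3
    exact thC_e C La7t7 h4 h3.1 h3.2
  have h0 : thC lo hi e La7t7 (ce e 29) = 0 := (hth 29 (by norm_num)).trans (by decide +kernel)
  refine ⟨_, _, _, ⟨⟨hN, Finset.Subset.refl _, fun x hx _ => (mem_lowPart.mp hx).2, ?_,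
    by norm_num⟩, Or.inr ⟨D, rfl, h0, hthin⟩⟩, h0, hthin⟩
  intro x hx hl
  obtain ⟨a, ha, rfl⟩ := La7_surj D C hx hl.le
  have ha25 : 25 ≤ a := La7_lv14 a ha (by rw [← (La7_le D C ha).2]; exact hl)
  by_cases h29 : a = 29
  · right
    rw [h29]
    exact ⟨h0, hthin⟩
  · left
    have h5 : ∀ a < 29, 25 ≤ a → 1 ≤ La7t7 (La7lv.getD a 0) (La7sl.getD a 0) := by decide +kernel
    have h6 := h5 a (by omega) ha25
    rw [← hth a ha] at h6
    have h7 := ct_ge hl (thC lo hi e La7t7 (ce e a) + 1)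
    have h8 : ∑ l ∈ range 15, min 2 (l - 7) ≤
        ∑ l ∈ range 15, min (thC lo hi e La7t7 (ce e a) + 1) (l - 7) :=
      Finset.sum_le_sum fun l _ => by omega
    have h9 : ∑ l ∈ range 15, min 2 (l - 7) = 13 := by decide
    omega

lemma late5_14 : ∀ w ∈ lateW 5, w.length ≠ 9 := by decide +kernel
lemma late6_14 : ∀ w ∈ lateW 6, w.length ≠ 8 := by decide +kernel
lemma late7_14 : ∀ w ∈ lateW 7, w.length = 7 → w = wa7.take 7 := by decide +kernel

/-- the types of all components -/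
theorem t7_shape (h : Win.GoodTo P r 14) (C : Comp 14 (t : P) lo hi e) (hS : Shape 14 lo hi) :
    ∃ N θ B, Dat t (hi 7 - lo 7 + 1) lo hi e N θ B := by
  rcases hS with h1 | ⟨h1, S'⟩ | ⟨h1, h2⟩ | ⟨h1, h2, h3⟩ | ⟨h1, h2⟩ | ⟨a, h0, h1, h2, h3, hN, h4⟩
  · have e1 := h1 7 (by omega)
    exact t7_light h C (by omega)
  · have hlt : lo 7 < hi 7 := by
      have g1 := C.lo_mono (l := 1) (d := 6) (by omega)
      have g2 := C.hi_mono (l := 1) (d := 6) (by omega)
      norm_num at g1 g2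
      by_contra hcon
      have g3 := C.lo_le 7 (by omega)
      have g4 := shape_lo C S'.lo (l := 7) (by omega) 7 (by omega)
      have g5 := shape_hi C S'.hi (l := 7) (by omega) 7 (by omega)
      have g6 := C.lo_le (7 + 7) (by omega)
      omega
    exact t7_rect h C S' hlt
  · exact t7_stair h C h2
  · omega
  · omega
  · have D : LateD 14 a lo hi := ⟨h0, h1, h2, h3, h4⟩
    rcases Nat.lt_or_ge 7 a with hma | hma
    · have e1 := D.h2 7 hma
      exact t7_light h C (by omega)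
    · rcases h4 with ⟨⟨g1, g2⟩, g3⟩ | g3
      · have hq := D.quad C g3
        obtain rfl : a = 7 := by omega
        exact t7_quad h C ⟨D.h2, D.h3, by
          intro k hk hk2
          have := hq (k - 7) (by omega) (by omega)
          rwa [show 7 + (k - 7) = k by omega] at this⟩
      · obtain rfl | rfl | rfl | rfl | rfl : a = 3 ∨ a = 4 ∨ a = 5 ∨ a = 6 ∨ a = 7 := by omega
        · have := (wordD_three D (by omega)).2
          omega
        · exact t7_seven h C (wordD_four D (by omega) (by omega)).1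
        · exact absurd word_length (late5_14 _ g3)
        · exact absurd word_length (late6_14 _ g3)
        · obtain ⟨N, θ, B, h5, -⟩ := t7_la h C ⟨D.h2, D.h3, late7_14 _ g3 (by rw [word_length])⟩
          exact ⟨N, θ, B, h5⟩

end Types

end Pool.Agent.GaussPoset.Sg
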