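import Pool.Agent.W_448s14_h94.SgM

/-!
**S14 is impossible** (MP_448cb3_co, step B, `j = 14`): if no element of level 15 is below two
maximal elements, then no element of level 15 is below both ends of a component `La7`.
-/

namespace Pool.Agent.GaussPoset.Sg

set_option linter.unusedSectionVars false

open Polynomial Finset Cl Dd Wd Cp

universe u

variable {P : Type u} [Fintype P] [PartialOrder P] [DecidableEq P] {r : ℕ}

/-- **No element of level 15 below both ends of `La7`.** -/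
theorem no_ends {lo hi : Tops P → ℕ → ℕ} {e : Tops P → ℕ → ℕ → P} (h : Win.GoodTo P r 14)
    (hno : ∀ z : P, lev z = 15 → ¬ Hul.Jn z)
    (C : ∀ t : Tops P, Comp 14 (t : P) (lo t) (hi t) (e t))
    (hS : ∀ t, Shape 14 (lo t) (hi t)) (t : Tops P) (D : WordD 14 7 wa7 (lo t) (hi t)) (z : P)
    (hz1 : z ⋖ e t 14 7) (hz2 : z ⋖ e t 14 3) : False := by
  classical
  have hex0 : ∀ t : Tops P, ∃ N θ B, Dat t (hi t 7 - lo t 7 + 1) (lo t) (hi t) (e t) N θ B ∧
      (WordD 14 7 wa7 (lo t) (hi t) → θ (ce (e t) 29) = 0 ∧ Thin (ce (e t) 29)) := by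
    intro t
    by_cases hD : WordD 14 7 wa7 (lo t) (hi t)
    · obtain ⟨N, θ, B, h1, h2⟩ := t7_la h (C t) hD
      exact ⟨N, θ, B, h1, fun _ => h2⟩
    · obtain ⟨N, θ, B, h1⟩ := t7_shape h (C t) (hS t)
      exact ⟨N, θ, B, h1, fun h => absurd h hD⟩
  choose N θ B hT hT2 using hex0
  have W : C7 r N (fun t => hi t 7 - lo t 7 + 1) θ B :=
    ⟨h, fun t => (hT t).1, (card_level h.H h.good C (i := 7) (by omega)).symm⟩
  -- from a component to its top
  have htop : ∀ (t : Tops P) (x : P), x ≤ (t : P) → lev x ≤ 14 → topOf x = t := fun t x hx hl =>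
    W.natSys.topOf_eq ((hT t).1.strip (mem_lowPart.mpr ⟨hx, hl⟩))
  have hthin : ∀ (t : Tops P) (x : P), x ≤ (t : P) → lev x = 14 → θ t x = 0 → Thin x →
      ∀ z, lev z = 15 → ¬ Pend z x := by
    intro t x hx hl h0 ht z hz hp
    refine W.no_thin hz hp ?_ ht
    rw [htop t x hx hl.le]
    exact h0
  -- the second stage
  have hex : ∀ t : Tops P, ∃ (N' A : Finset P) (θ' : P → ℕ) (B' : P → Prop) (ρ : ℤ),
      T25 t (hi t 7 - lo t 7 + 1) N' A θ' B' ρ ∧ (WordD 14 7 wa7 (lo t) (hi t) →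
        (∃ z, Mk (e t) z 570425344) → 0 < ρ) := by
    intro t
    by_cases hD : WordD 14 7 wa7 (lo t) (hi t)
    · have hb : hi t 7 - lo t 7 + 1 = 2 := by
        obtain ⟨h1, h2⟩ := hD.rows (C t)
        rw [h1 7 (by omega), h2 7 (by omega)]
        decide +kernel
      have hp0 : ∀ z, ¬ Mk (e t) z 536870912 := by
        intro z hz
        have h29 := La7_le hD (C t) (a := 29) (by norm_num)
        have hl29 : lev (ce (e t) 29) = 14 := h29.2.trans (by decide +kernel)
        have hpd : Pend z (ce (e t) 29) := by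
          refine ⟨hz.cov (by norm_num) (by decide +kernel), fun y hy => ?_⟩
          obtain ⟨b, hb, hbit, rfl⟩ := (hz.2 y).mp hy
          have h3 : ∀ b < 30, Nat.testBit 536870912 b = true → b = 29 := by decide +kernel
          rw [h3 b hb hbit]
        obtain ⟨h3, h4⟩ := hT2 t hD
        exact hthin t _ h29.1 hl29 h3 h4 z hz.1 hpd
      obtain ⟨A, θ', ρ, hL⟩ := la7_data hD (C t) h t.2 hp0
      refine ⟨_, A, θ', _, ρ, T25.la (lo t) (hi t) (e t) (C t) hD rfl hb rfl hL, fun _ => hL.pos⟩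
    · rcases (hT t).2 with ⟨h3, h4⟩ | ⟨h3, -⟩
      · exact ⟨N t, ∅, θ t, B t, 0, T25.nat h3 rfl rfl (fun x hx hl h0 ht =>
          ⟨h4 x hx hl h0 ht, hthin t x hx hl h0 ht⟩), fun h => absurd h hD⟩
      · exact absurd h3 hD
  choose N' A θ' B' ρ hT' hpos using hex
  have W' : D7 r N' A (fun t => hi t 7 - lo t 7 + 1) θ' B' ρ :=
    ⟨h, hno, hT', (card_level h.H h.good C (i := 7) (by omega)).symm⟩
  refine W'.no_pos (t0 := t) (hpos t D ?_)
  have e29 : ce (e t) 29 = e t 14 7 := by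
    unfold ce
    rfl
  have e25 : ce (e t) 25 = e t 14 3 := by
    unfold ce
    rfl
  have hl29 := (La7_le D (C t) (a := 29) (by norm_num)).2
  rw [← e29] at hz1
  rw [← e25] at hz2
  have hlz : lev z = 15 := by
    have h1 := (h.H.covBy_iff.mp hz1).2
    rw [hl29] at h1
    exact h1
  obtain ⟨m, hm, hmk⟩ := La7_msk D (C t) h t.2 hlz (fun y hy => by
    have h1 := W'.cov_top hlz hz1 hy
    rw [htop t _ (La7_le D (C t) (a := 29) (by norm_num)).1 (by rw [hl29]; decide +kernel)] at h1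
    exact h1)
  have hmk' : Mk (e t) z m := ⟨hlz, hmk⟩
  have h1 : ∀ m ∈ msk, m.testBit 29 = true → m.testBit 25 = true → m = 570425344 := by
    decide +kernel
  have b29 : m.testBit 29 = true := by
    by_contra hcon
    exact hmk'.ncov D (C t) h t.2 (by norm_num) (by simpa using hcon) hz1
  have b25 : m.testBit 25 = true := by
    by_contra hcon
    exact hmk'.ncov D (C t) h t.2 (by norm_num) (by simpa using hcon) hz2
  rw [h1 m hm b29 b25] at hmk'
  exact ⟨z, hmk'⟩

end Pool.Agent.GaussPoset.Sg
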