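import Pool.Agent.W_448cl_h67.ClR
import Pool.Agent.W_448dd_h67.DdI

/-!
Window sums of coded components up to a given energy (MP_448cb3_co, step B, `j = 14`): checks,
local data, no first pole.
-/

namespace Pool.Agent.GaussPoset.Sg

set_option linter.unusedSectionVars false

open Polynomial Finset Cl Dd

universe u

/-- the check: `(J, ℓ, M, n3, c)`, the coefficient at `n3` is `c`, lower coefficients are zero -/
def polC (N B K : ℕ) (Us : List ℕ) (i0 : ℕ) (PL : List (ℕ × ℕ × ℕ × ℕ × ℕ)) : Bool :=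
  ((fun h => PL.all fun x => chkL B i0 h (decide (x.2.2.1 % 2 = 0)) x.1 x.2.1 x.2.2.1
    (x.2.2.2.1 + pc N x.1) x.2.2.2.2) (hist (ws N B Us) K (stp (ws N B Us) (ini Us)))) &&
  ((fun h => PL.all fun x => chkS B x.2.2.2.2 h x.1 x.2.2.1)
    (hist (ws N 1 Us) K (stp (ws N 1 Us) (ini Us))))

/-- the numerical conditions -/
def numC (N K i0 : ℕ) (n0 : ℕ) (lv : ℕ → ℕ) (x : ℕ × ℕ × ℕ × ℕ × ℕ) : Bool :=
  Nat.ble x.2.2.1 K && Nat.blt i0 x.2.1 && Nat.ble (pc N x.1) (x.2.1 + x.2.2.1) &&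
  ((List.range N).any fun a => x.1.testBit a && Nat.ble x.2.1 (lv a + 1)) &&
  decide (∑ a ∈ (range N).filter (fun a => x.1.testBit a = true), min i0 (lv a) + n0 +
    e1 x.2.1 x.2.2.1 i0 = e2 x.2.1 i0 (pc N x.1) + x.2.2.2.1)

variable {P : Type u} [Fintype P] [PartialOrder P] [DecidableEq P]
variable {n N : ℕ} {cv lv : ℕ → ℕ} {c : ℕ → P} {Us : List ℕ}

/-- the value at the energy `n0` of a coded up-set -/
theorem cod_val (C : Cod n cv lv c) (hU : UsOK N cv Us) (hn : n ≤ N) {B i0 K n0 : ℕ}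
    {PL : List (ℕ × ℕ × ℕ × ℕ × ℕ)} (h : polC N B K Us i0 PL = true) {x : ℕ × ℕ × ℕ × ℕ × ℕ}
    (hx : x ∈ PL) (hJ : x.1 ∈ Us) (hJn : x.1 < 2 ^ n) (hnum : numC N K i0 n0 lv x = true) :
    (∀ n' < n0, (1 + X : ℤ[X]) ^ 2 ∣ Z {y : P // y ∈ toS n c x.1} i0 n') ∧
      ∃ s : ℤ[X], Z {y : P // y ∈ toS n c x.1} i0 n0 = (1 + X) * s ∧
        s.eval (-1) = sgn x.2.1 x.2.2.1 i0 * x.2.2.2.2 := by
  obtain ⟨J, ℓ, M, n3, c0⟩ := x
  simp only at hx hJ hJn ⊢
  unfold numC at hnum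
  simp only [Bool.and_eq_true] at hnum
  obtain ⟨⟨⟨⟨g1, g2⟩, g3⟩, g4⟩, g5⟩ := hnum
  have g1 := Nat.le_of_ble_eq_true g1
  have g2 := Nat.blt_eq.mp g2
  have g3 := Nat.le_of_ble_eq_true g3
  have g5 := of_decide_eq_true g5
  rw [List.any_eq_true] at g4
  obtain ⟨a, ha, hab⟩ := g4
  rw [Bool.and_eq_true] at hab
  unfold polC at h
  rw [Bool.and_eq_true] at h
  obtain ⟨h1, h2⟩ := h
  rw [hist_one hU] at h1 h2
  simp only [List.all_eq_true] at h1 h2
  have k1 := h1 _ hx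
  have k2 := h2 _ hx
  simp only at k1 k2 g1 g2 g3 g5 hab
  have hup := C.up hU hn hJ
  have h5 : ∀ m, U {x : P // x ∈ toS n c J} m =
      (uR N (X : ℕ[X]) Us J m).map (Nat.castRingHom ℤ) := fun m => by
    rw [U_eq_V hup, C.V_eq hU hn m J hJ hJn]
  have hlow := poly_low (n := N) (ℓ := ℓ) hJ g1 rfl k1 k2
  simp only [← h5] at hlow
  have han : a < n := by
    by_contra hcon
    rw [Nat.testBit_lt_two_pow (lt_of_lt_of_le hJn (Nat.pow_le_pow_right (by norm_num)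
      (by omega)))] at hab
    exact absurd hab.1 (by simp)
  have hlv : ∀ x : {x : P // x ∈ toS n c J}, GaussPoset.lev x = GaussPoset.lev (x : P) :=
    lev_subtype (p := fun x => x ∈ toS n c J) (fun x y hxy hx => hup x hx y hxy)
  have hxx : ∀ i < ℓ, ∃ x : {x : P // x ∈ toS n c J}, i ≤ GaussPoset.lev x := by
    intro i hi
    refine ⟨⟨c a, (C.mem_iff han).mpr hab.1⟩, ?_⟩
    rw [hlv, C.lev a han]
    have := Nat.le_of_ble_eq_true hab.2
    omega
  have hcd : Fintype.card {x : P // x ∈ toS n c J} = pc N J := by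
    rw [Fintype.card_coe, C.card, ← pc_stable hn hJn]
  obtain ⟨V, hV⟩ := dvd_W_one (Q := {x : P // x ∈ toS n c J}) (i := i0) (hxx i0 g2)
  have hM0 : M0 {x : P // x ∈ toS n c J} i0 =
      ∑ a ∈ (range N).filter (fun a => J.testBit a = true), min i0 (lv a) := by
    rw [filter_stable hn hJn, ← cod_sum_lev C (fun l => min i0 l)]
    unfold M0
    rw [← Finset.sum_coe_sort (toS n c J)]
    exact Finset.sum_congr rfl fun x _ => by rw [hlv]
  have hL := lead_V hxx (by rw [hcd]; exact g3) g2 hV hlow.1 hlow.2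
    (N := M0 {x : P // x ∈ toS n c J} i0 + n0) (by rw [hM0, hcd]; exact g5)
  exact Z_of_lead hV hL

/-- order two up to the energy `n0` -/
theorem cod_low (C : Cod n cv lv c) (hU : UsOK N cv Us) (hn : n ≤ N) {B i0 K n0 : ℕ}
    {PL : List (ℕ × ℕ × ℕ × ℕ × ℕ)} (h : polC N B K Us i0 PL = true) {x : ℕ × ℕ × ℕ × ℕ × ℕ}
    (hx : x ∈ PL) (hJ : x.1 ∈ Us) (hJn : x.1 < 2 ^ n) (hnum : numC N K i0 n0 lv x = true)
    (hc : x.2.2.2.2 = 0) :
    ∀ n' ≤ n0, (1 + X : ℤ[X]) ^ 2 ∣ Z {y : P // y ∈ toS n c x.1} i0 n' := by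
  obtain ⟨h1, s, h2, h3⟩ := cod_val C hU hn h hx hJ hJn hnum
  intro n' hn'
  rcases Nat.lt_or_ge n' n0 with h4 | h4
  · exact h1 n' h4
  · obtain rfl : n' = n0 := by omega
    rw [h2, pow_two]
    refine mul_dvd_mul_left _ ?_
    rw [hc, Nat.cast_zero, mul_zero] at h3
    have h5 := Polynomial.dvd_iff_isRoot.mpr (show s.IsRoot (-1) from h3)
    rwa [map_neg, map_one, sub_neg_eq_add, add_comm] at h5

/-- the check for all up-sets above the base: every one is listed with coefficient `0` at the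
energy `n0` -/
def lowC (N K i0 n0 : ℕ) (lv : ℕ → ℕ) (Us : List ℕ) (bm : ℕ) (L : List (ℕ × ℕ × ℕ × ℕ × ℕ)) :
    Bool :=
  (L.all fun x => numC N K i0 n0 lv x && Nat.beq x.2.2.2.2 0) &&
  (Us.all fun J => !(Nat.beq (Nat.land bm J) bm) || L.any fun x => Nat.beq x.1 J)

/-- order two of all up-sets above the base -/
theorem cod_clean (C : Cod n cv lv c) (hU : UsOK N cv Us) (hn : n ≤ N) {B i0 K n0 bm : ℕ}
    {L PL : List (ℕ × ℕ × ℕ × ℕ × ℕ)} (h : polC N B K Us i0 PL = true)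
    (hL : lowC N K i0 n0 lv Us bm L = true) (hsub : ∀ x ∈ L, x ∈ PL) {I : Finset P}
    (hI : ∀ x ∈ I, ∃ a < n, c a = x) (hup : Up I) (hbn : bm < 2 ^ n)
    (hb : ∀ a < n, bm.testBit a = true → c a ∈ I) :
    ∀ n' ≤ n0, (1 + X : ℤ[X]) ^ 2 ∣ Z {x : P // x ∈ I} i0 n' := by
  unfold lowC at hL
  simp only [Bool.and_eq_true] at hL
  obtain ⟨h3, h4⟩ := hL
  rw [List.all_eq_true] at h3 h4
  obtain ⟨J, hJ, hJn, rfl⟩ := C.exists_code hU hn hI hup
  have h5 := h4 J hJ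
  have h6 : Nat.land bm J = bm := by
    rw [land_iff hbn]
    intro a ha h7
    exact (C.mem_iff ha).mp (hb a ha h7)
  rw [h6, Nat.beq_refl] at h5
  have h7 : (L.any fun x => Nat.beq x.1 J) = true := by simpa using h5
  rw [List.any_eq_true] at h7
  obtain ⟨x, hx, hxJ⟩ := h7
  have h8 : x.1 = J := Nat.eq_of_beq_eq_true hxJ
  subst h8
  have h9 := h3 _ hx
  rw [Bool.and_eq_true] at h9
  exact cod_low C hU hn h (hsub x hx) hJ hJn h9.1 (Nat.eq_of_beq_eq_true h9.2)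

/-! ### local data up to an energy -/

/-- local data, order `b` below the energy `n0` -/
structure LocL (i b n0 : ℕ) (N : Finset P) (θ : P → ℕ) (B : P → Prop) : Prop where
  clean : ∀ U ⊆ N, (∀ x ∈ U, ∀ y, x ≤ y → y ∈ U) → (∀ x ∈ N, lev x ≤ i → x ∈ U) →
    (∀ x ∈ N, B x → x ∈ U) → ∀ n < n0, (1 + X : ℤ[X]) ^ b ∣ Z {x : P // x ∈ U} i n
  lev : ∀ x ∈ N, 1 ≤ θ x → i < lev x
  base : ∀ x ∈ N, 1 ≤ θ x → ∀ y ∈ N, y ≤ x → ¬ B y
  step : ∀ x ∈ N, 1 ≤ θ x → ∀ y ∈ N, y ≤ x → ∀ x' ∈ N, y ⋖ x' → ¬ x' ≤ x → θ x ≤ θ x' + 1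
  le : ∀ x ∈ N, θ x ≤ Pool.Agent.GaussPoset.lev x - i

/-- the part of a component in the complement of a lower set -/
def isoPart {M : Tops P → Finset P} (HM : NatSys M) (t : Tops P) {D : Finset P}
    (hD : unnat M ⊆ D) (U : Finset P) (hU : ∀ x, x ∈ U ↔ x ∈ M t ∧ x ∉ D) :
    {x : P // x ∈ U} ≃o {x : {x : P // x ∉ D} // topOf (x : P) = t} where
  toFun := fun x => ⟨⟨x, ((hU x).mp x.2).2⟩, HM.topOf_eq ((hU x).mp x.2).1⟩
  invFun := fun x => ⟨x.1.1, (hU _).mpr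
    ⟨HM.mem_iff.mpr ⟨fun h => x.1.2 (hD h), x.2⟩, x.1.2⟩⟩
  left_inv := fun _ => rfl
  right_inv := fun _ => rfl
  map_rel_iff' := Iff.rfl

/-- local data give component data -/
theorem LocL.data {i b n0 : ℕ} {t : Tops P} {θ : P → ℕ} {B : P → Prop} {M : Tops P → Finset P}
    (L : LocL i b n0 (M t) θ B) (HM : NatSys M) (θ' : P → ℕ) (B' : P → Prop)
    (hθ : ∀ x ∈ M t, θ' x = θ x) (hB : ∀ x ∈ M t, B' x ↔ B x) :
    CompDataL (unnat M) topOf t i b n0 θ' B' := by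
  have hup := HM.up t
  have hmem : ∀ x, x ∉ unnat M → topOf x = t → x ∈ M t := fun x h1 h2 => HM.mem_iff.mpr ⟨h1, h2⟩
  constructor
  · intro D hD hdec n hn
    classical
    let U : Finset P := (M t).filter (fun x => x ∉ D)
    have hU : ∀ x, x ∈ U ↔ x ∈ M t ∧ x ∉ D := by
      intro x
      simp [U]
    have h1 := L.clean U (Finset.filter_subset _ _) (fun x hx y hxy => by
        rw [hU] at hx ⊢
        exact ⟨hup x hx.1 y hxy, fun h => hx.2 (hD.1 x y hxy h)⟩)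
      (fun x hx hxi => by
        rw [hU]
        exact ⟨hx, fun h => by have := hD.2.2.1 x h; omega⟩)
      (fun x hx hxB => by
        rw [hU]
        exact ⟨hx, fun h => hD.2.2.2 x h ((hB x hx).mpr hxB)⟩) n hn
    rw [Z_iso (isoPart HM t hD.2.1 U hU)] at h1
    convert h1
  · intro x hx hk h1
    rw [hθ x (hmem x hx hk)] at h1
    exact L.lev x (hmem x hx hk) h1
  · intro x hx hk h1 y hyx hy
    have hxN := hmem x hx hk
    have hyN : y ∈ M t := by
      have h2 : topOf y = topOf x := HM.cp y x hyx hy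
      exact hmem y hy (h2.trans hk)
    rw [hθ x hxN] at h1
    rw [hB y hyN]
    exact L.base x hxN h1 y hyN hyx
  · intro x hx hk h1 y hyx hy x' hx' hyx' hn
    have hxN := hmem x hx hk
    have hyN : y ∈ M t := by
      have h2 : topOf y = topOf x := HM.cp y x hyx hy
      exact hmem y hy (h2.trans hk)
    have hxN' : x' ∈ M t := hup y hyN x' hyx'.1.le
    rw [hθ x hxN] at h1 ⊢
    rw [hθ x' hxN']
    exact L.step x hxN h1 y hyN hyx x' hxN' hyx' hn
  · intro x hx hk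
    rw [hθ x (hmem x hx hk)]
    exact L.le x (hmem x hx hk)

/-- a larger excluded set -/
lemma compDataL_mono {ι : Type*} {R R' : Finset P} {cp : P → ι} {k : ι} {i b n0 : ℕ}
    {θ : P → ℕ} {B : P → Prop} (H : CompDataL R cp k i b n0 θ B) (h : R ⊆ R') :
    CompDataL R' cp k i b n0 θ B where
  clean := fun D hD => H.clean D ⟨hD.1, h.trans hD.2.1, hD.2.2⟩
  lev := fun x hx => H.lev x fun h' => hx (h h')
  base := fun x hx hk h1 y hy hyR => H.base x (fun h' => hx (h h')) hk h1 y hy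
    fun h' => hyR (h h')
  step := fun x hx hk h1 y hy hyR x' hx' => H.step x (fun h' => hx (h h')) hk h1 y hy
    (fun h' => hyR (h h')) x' fun h' => hx' (h h')
  le := fun x hx => H.le x fun h' => hx (h h')

/-- the thresholds of a coded set -/
noncomputable def thI (n : ℕ) (c : ℕ → P) (th : ℕ → ℕ) (x : P) : ℕ :=
  ∑ a ∈ range n, if c a = x then th a else 0

lemma thI_c (C : Cod n cv lv c) (th : ℕ → ℕ) {a : ℕ} (ha : a < n) : thI n c th (c a) = th a := by
  unfold thI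
  rw [Finset.sum_eq_single a]
  · rw [if_pos rfl]
  · intro b hb hne
    rw [if_neg fun h => hne (C.inj b (mem_range.mp hb) a ha h)]
  · intro h
    exact absurd (mem_range.mpr ha) h

/-- local data of a coded set -/
theorem cod_locL (C : Cod n cv lv c) (hU : UsOK N cv Us) (hn : n ≤ N) {um th : ℕ → ℕ}
    {i a0 n0 : ℕ} (hth : thChk N i a0 lv cv um th = true) (ha0 : a0 < n) {S : Finset P}
    (hS : ∀ x, x ∈ S ↔ ∃ a < n, c a = x)
    (hcl : ∀ I ⊆ S, Up I → (∀ a < n, lv a ≤ i → c a ∈ I) → c a0 ∈ I →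
      ∀ n' < n0, (1 + X : ℤ[X]) ^ 2 ∣ Z {x : P // x ∈ I} i n') :
    LocL i 2 n0 S (thI n c th) (fun x => x = c a0) := by
  unfold thChk at hth
  simp only [Bool.and_eq_true, List.all_eq_true, List.mem_range, Bool.or_eq_true, ble_iff,
    beq_iff, Nat.blt_eq, Bool.not_eq_true'] at hth
  obtain ⟨⟨h1, h2⟩, h3⟩ := hth
  have hle : ∀ {a b : ℕ}, a < n → b < n → (c a ≤ c b ↔ (um a).testBit b = true) := fun ha hb =>
    C.le_iff hn hU.cv h1 ha hb
  have hpos : ∀ x ∈ S, 1 ≤ thI n c th x → ∃ a < n, c a = x ∧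
      i < lv a ∧ (um a0).testBit a = false ∧ th a ≤ lv a - i ∧
      ∀ y < N, (um y).testBit a = false ∨ ∀ x' < N, ((cv y).testBit x' = false ∨
        (um x').testBit a = true) ∨ th a ≤ th x' + 1 := by
    intro x hx h4
    obtain ⟨a, ha, rfl⟩ := (hS x).mp hx
    rw [thI_c C th ha] at h4
    rcases h2 a (by omega) with h5 | ⟨⟨⟨h5, h6⟩, h7⟩, h8⟩
    · omega
    · exact ⟨a, ha, rfl, h5, h6, h7, h8⟩
  constructor
  · intro U hUS hup hlow hB
    refine hcl U hUS hup (fun a ha hl => hlow _ ((hS _).mpr ⟨a, ha, rfl⟩) ?_)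
      (hB _ ((hS _).mpr ⟨a0, ha0, rfl⟩) rfl)
    rw [C.lev a ha]
    exact hl
  · intro x hx h4
    obtain ⟨a, ha, rfl, h5, -⟩ := hpos x hx h4
    rw [C.lev a ha]
    exact h5
  · rintro x hx h4 y hy hyx rfl
    obtain ⟨a, ha, rfl, -, h6, -⟩ := hpos x hx h4
    rw [hle ha0 ha, h6] at hyx
    exact absurd hyx (by simp)
  · intro x hx h4 y hy hyx x' hx' hyx' hn'
    obtain ⟨a, ha, rfl, -, -, -, h8⟩ := hpos x hx h4
    obtain ⟨y, hy', rfl⟩ := (hS y).mp hy
    obtain ⟨x', hxn', hcx, rfl⟩ := (C.cov y hy' x').mp hyx'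
    rw [thI_c C th ha, thI_c C th hxn']
    rcases h8 y (by omega) with h9 | h9
    · rw [hle hy' ha, h9] at hyx
      exact absurd hyx (by simp)
    · rcases h9 x' (by omega) with (h10 | h10) | h10
      · rw [hcx] at h10
        exact absurd h10 (by simp)
      · exact absurd ((hle hxn' ha).mpr h10) hn'
      · exact h10
  · intro x hx
    rcases Nat.eq_zero_or_pos (thI n c th x) with h4 | h4
    · rw [h4]; exact Nat.zero_le _
    · obtain ⟨a, ha, rfl, -, -, h7, -⟩ := hpos x hx h4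
      rw [thI_c C th ha, C.lev a ha]
      exact h7

/-- the mask `bm` consists of cells of the levels `≤ i` and cells above `a0` -/
def bmC (N i a0 bm : ℕ) (lv um : ℕ → ℕ) : Bool :=
  (List.range N).all fun a => !(bm.testBit a) || Nat.ble (lv a) i || (um a0).testBit a

/-- local data from the checks -/
theorem cod_locL' (C : Cod n cv lv c) (hU : UsOK N cv Us) (hn : n ≤ N) {um th : ℕ → ℕ}
    {i a0 n0 B K bm : ℕ} (hth : thChk N i a0 lv cv um th = true) (ha0 : a0 < n) {S : Finset P}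
    (hS : ∀ x, x ∈ S ↔ ∃ a < n, c a = x) {L PL : List (ℕ × ℕ × ℕ × ℕ × ℕ)}
    (h : polC N B K Us i PL = true) (hL : lowC N K i n0 lv Us bm L = true)
    (hsub : ∀ x ∈ L, x ∈ PL) (hbm : bmC N i a0 bm lv um = true) (hbn : bm < 2 ^ n) :
    LocL i 2 (n0 + 1) S (thI n c th) (fun x => x = c a0) := by
  refine cod_locL C hU hn hth ha0 hS fun I hI hup hlow hb n' hn' => ?_
  refine cod_clean C hU hn h hL hsub (fun x hx => (hS x).mp (hI hx)) hup hbn ?_ n' (by omega)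
  intro a ha hab
  unfold bmC at hbm
  simp only [List.all_eq_true, List.mem_range, Bool.or_eq_true, ble_iff,
    Bool.not_eq_true'] at hbm
  rcases hbm a (by omega) with (h1 | h1) | h1
  · rw [hab] at h1
    exact absurd h1 (by simp)
  · exact hlow a ha h1
  · unfold thChk at hth
    simp only [Bool.and_eq_true, List.all_eq_true, List.mem_range, beq_iff] at hth
    exact hup _ hb _ ((C.le_iff hn hU.cv hth.1.1 ha0 ha).mpr h1)

end Pool.Agent.GaussPoset.Sg
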