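import Pool.Agent.W_448s14_h94.SgA

/-!
A faster evaluation of the checks by the kernel: recursors instead of compiled matches.
-/

namespace Pool.Agent.GaussPoset.Sg

set_option linter.unusedSectionVars false

open Polynomial Finset Cl Dd

/-- `rowN` -/
noncomputable def rowF (J : ℕ) (l : List (ℕ × ℕ)) : ℕ :=
  @List.rec (ℕ × ℕ) (fun _ => ℕ) 0 (fun p _ ih =>
    @Bool.rec (fun _ => ℕ) ih (Nat.add p.2 ih) (Nat.beq (Nat.land p.1 J) p.1)) l

lemma rowF_eq (J : ℕ) (l : List (ℕ × ℕ)) : rowF J l = rowN J l := by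
  induction l with
  | nil => rfl
  | cons p l ih =>
    obtain ⟨I, v⟩ := p
    have h1 : rowF J ((I, v) :: l) =
        @Bool.rec (fun _ => ℕ) (rowF J l) (Nat.add v (rowF J l)) (Nat.beq (Nat.land I J) I) := rfl
    rw [h1, ih, rowN]
    cases Nat.beq (Nat.land I J) I <;> rfl

/-- `stp` -/
noncomputable def stpF (W st : List (ℕ × ℕ)) : List (ℕ × ℕ) :=
  @List.rec (ℕ × ℕ) (fun _ => List (ℕ × ℕ) → List (ℕ × ℕ)) (fun _ => []) (fun p _ ih st =>
    @List.rec (ℕ × ℕ) (fun _ => List (ℕ × ℕ)) [] (fun q tl _ =>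
      (p.1, Nat.mul p.2 (rowF p.1 (q :: tl))) :: ih tl) st) W st

lemma stpF_eq (W st : List (ℕ × ℕ)) : stpF W st = stp W st := by
  induction W generalizing st with
  | nil => rfl
  | cons p W ih =>
    cases st with
    | nil => rfl
    | cons q st =>
      have h1 : stpF (p :: W) (q :: st) =
        (p.1, Nat.mul p.2 (rowF p.1 (q :: st))) :: stpF W st := rfl
      rw [h1, ih, rowF_eq]
      rfl

/-- `hist` -/
noncomputable def histF (W : List (ℕ × ℕ)) (m : ℕ) (st : List (ℕ × ℕ)) :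
    List (List (ℕ × ℕ)) :=
  @Nat.rec (fun _ => List (ℕ × ℕ) → List (List (ℕ × ℕ))) (fun st => [st])
    (fun _ ih st => st :: ih (stpF W st)) m st

lemma histF_eq (W : List (ℕ × ℕ)) (m : ℕ) (st : List (ℕ × ℕ)) :
    histF W m st = hist W m st := by
  induction m generalizing st with
  | zero => rfl
  | succ m ih =>
    have h1 : histF W (m + 1) st = st :: histF W m (stpF W st) := rfl
    rw [h1, ih, stpF_eq]
    rfl

/-- `lk` -/
noncomputable def lkF (J : ℕ) (l : List (ℕ × ℕ)) : ℕ :=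
  @List.rec (ℕ × ℕ) (fun _ => ℕ) 0 (fun p _ ih =>
    @Bool.rec (fun _ => ℕ) ih p.2 (Nat.beq p.1 J)) l

lemma lkF_eq (J : ℕ) (l : List (ℕ × ℕ)) : lkF J l = lk J l := by
  induction l with
  | nil => rfl
  | cons p l ih =>
    obtain ⟨I, v⟩ := p
    have h1 : lkF J ((I, v) :: l) =
        @Bool.rec (fun _ => ℕ) (lkF J l) v (Nat.beq I J) := rfl
    rw [h1, ih, lk]
    cases Nat.beq I J <;> rfl

/-- `altP` of the first `n` states -/
noncomputable def altF (ee : ℕ → ℕ) (J : ℕ) (n : ℕ) (l : List (List (ℕ × ℕ))) (m a b : ℕ) :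
    ℕ × ℕ :=
  @Nat.rec (fun _ => List (List (ℕ × ℕ)) → ℕ → ℕ → ℕ → ℕ × ℕ) (fun _ _ a b => (a, b))
    (fun _ ih l m a b => @List.rec (List (ℕ × ℕ)) (fun _ => ℕ × ℕ) (a, b) (fun st tl _ =>
      ih tl (Nat.succ m) b (Nat.add a (Nat.mul (lkF J st) (ee m)))) l) n l m a b

lemma altF_eq (ee : ℕ → ℕ) (J : ℕ) (n : ℕ) : ∀ (l : List (List (ℕ × ℕ))) (m a b : ℕ),
    altF ee J n l m a b = altP ee J m (take n l) a b := by
  induction n with
  | zero => intro l m a b; cases l <;> rfl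
  | succ n ih =>
    intro l m a b
    cases l with
    | nil => rfl
    | cons st tl =>
      have h1 : altF ee J (n + 1) (st :: tl) m a b =
        altF ee J n tl (Nat.succ m) b (Nat.add a (Nat.mul (lkF J st) (ee m))) := rfl
      rw [h1, ih, lkF_eq]
      rfl

/-- `sumU` of the first `n` states -/
noncomputable def sumF (J : ℕ) (n : ℕ) (l : List (List (ℕ × ℕ))) : ℕ :=
  @Nat.rec (fun _ => List (List (ℕ × ℕ)) → ℕ) (fun _ => 0)
    (fun _ ih l => @List.rec (List (ℕ × ℕ)) (fun _ => ℕ) 0 (fun st tl _ =>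
      Nat.add (lkF J st) (ih tl)) l) n l

lemma sumF_eq (J : ℕ) (n : ℕ) : ∀ (l : List (List (ℕ × ℕ))),
    sumF J n l = sumU J (take n l) := by
  induction n with
  | zero => intro l; cases l <;> rfl
  | succ n ih =>
    intro l
    cases l with
    | nil => rfl
    | cons st tl =>
      have h1 : sumF J (n + 1) (st :: tl) = Nat.add (lkF J st) (sumF J n tl) := rfl
      rw [h1, ih, lkF_eq]
      rfl

/-- products -/
noncomputable def prodF (n : ℕ) (f : ℕ → ℕ) : ℕ :=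
  @Nat.rec (fun _ => ℕ) 1 (fun k ih => Nat.mul ih (f k)) n

lemma prodF_eq (n : ℕ) (f : ℕ → ℕ) : prodF n f = prodN n f := by
  induction n with
  | zero => rfl
  | succ n ih =>
    have h1 : prodF (n + 1) f = Nat.mul (prodF n f) (f n) := rfl
    rw [h1, ih]
    rfl

/-- the cofactors -/
noncomputable def eoF (B ℓ M i0 m : ℕ) : ℕ :=
  Nat.mul (Nat.mul (Nat.mul (Nat.pow B (tri (M - m)))
    (prodF (M - m) (fun k => Nat.sub (Nat.pow B (m + ℓ + 1 + k)) 1)))
    (prodF m (fun k => Nat.sub (Nat.pow B (M - m + 1 + k)) 1)))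
    (Nat.mul (prodF m (fun k => Nat.sub (Nat.pow B (k + 1 + i0)) 1))
      (prodF (M - m) (fun k => Nat.sub (Nat.pow B (m + 1 + (k + 1) + i0)) 1)))

lemma eoF_eq (B ℓ M i0 m : ℕ) : eoF B ℓ M i0 m = eo B ℓ M i0 1 m := by
  unfold eoF eo
  simp only [prodF_eq, pow_one]
  rfl

/-- the conjunction over a list -/
noncomputable def allF {α : Type} (f : α → Bool) (l : List α) : Bool :=
  @List.rec α (fun _ => Bool) true (fun x _ ih => @Bool.rec (fun _ => Bool) false ih (f x)) l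

lemma allF_eq {α : Type} (f : α → Bool) (l : List α) : allF f l = l.all f := by
  induction l with
  | nil => rfl
  | cons x l ih =>
    have h1 : allF f (x :: l) = @Bool.rec (fun _ => Bool) false (allF f l) (f x) := rfl
    rw [h1, ih, List.all_cons]
    cases f x <;> rfl

/-- `chkL` -/
noncomputable def chkF (B i0 : ℕ) (h : List (List (ℕ × ℕ))) (J ℓ M N c : ℕ) : Bool :=
  (fun p : ℕ × ℕ => @Bool.rec (fun _ => Bool) (cmpP B N c p) (cmpP B N c p.swap)
    (Nat.beq (M % 2) 0)) (altF (eoF B ℓ M i0) J (M + 1) h 0 0 0)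

lemma chkF_eq (B i0 : ℕ) (h : List (List (ℕ × ℕ))) (J ℓ M N c : ℕ) :
    chkF B i0 h J ℓ M N c = chkL B i0 h (decide (M % 2 = 0)) J ℓ M N c := by
  have hee : eoF B ℓ M i0 = eo B ℓ M i0 1 := by
    funext m
    exact eoF_eq B ℓ M i0 m
  unfold chkF chkL
  rw [altF_eq, hee]
  by_cases hM : M % 2 = 0
  · have h1 : Nat.beq (M % 2) 0 = true := by rw [hM]; rfl
    rw [h1]
    simp only [hM, decide_true]
  · have h1 : Nat.beq (M % 2) 0 = false := by
      rw [show M % 2 = 1 by omega]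
      rfl
    rw [h1]
    simp only [hM, decide_false]

/-- the fast check, first part -/
noncomputable def polF1 (N B K : ℕ) (Us : List ℕ) (i0 : ℕ)
    (PL : List (ℕ × ℕ × ℕ × ℕ × ℕ)) : Bool :=
  (fun W => (fun h => allF (fun x => chkF B i0 h x.1 x.2.1 x.2.2.1
    (x.2.2.2.1 + pc N x.1) x.2.2.2.2) PL) (histF W K (stpF W (ini Us)))) (ws N B Us)

/-- the fast check, second part -/
noncomputable def polF2 (N B K : ℕ) (Us : List ℕ) (PL : List (ℕ × ℕ × ℕ × ℕ × ℕ)) : Bool :=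
  (fun W => (fun h => allF (fun x => Nat.blt (Nat.add (sumF x.1 (x.2.2.1 + 1) h *
    2 ^ (2 * x.2.2.1)) x.2.2.2.2) B) PL) (histF W K (stpF W (ini Us)))) (ws N 1 Us)

theorem polC_of_fast {N B K : ℕ} {Us : List ℕ} {i0 : ℕ} {PL : List (ℕ × ℕ × ℕ × ℕ × ℕ)}
    (h1 : polF1 N B K Us i0 PL = true) (h2 : polF2 N B K Us PL = true) :
    polC N B K Us i0 PL = true := by
  unfold polC
  unfold polF1 at h1
  unfold polF2 at h2
  simp only [allF_eq, histF_eq, stpF_eq, chkF_eq, sumF_eq] at h1 h2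
  rw [Bool.and_eq_true]
  exact ⟨h1, h2⟩

end Pool.Agent.GaussPoset.Sg
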