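import Pool.Agent.W_448s14_h94.SgA
import Pool.Agent.W_448cl_h67.ClS
import Pool.Agent.W_448s8_h76.SaE
import Pool.Agent.W_448cp_h96.CE
import Pool.Agent.W_448cr_h63.CH

/-!
Elements of level 15 below the strip `La7`: codes, costs, types.
-/

namespace Pool.Agent.GaussPoset.Sg

set_option linter.unusedSectionVars false
set_option synthInstance.maxSize 1000

open Polynomial Finset Cl Dd Wd Win

universe u

variable {P : Type u} [Fintype P] [PartialOrder P] [DecidableEq P]

section Append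

variable {n K : ℕ} {cv lv cx lx cv' lv' : ℕ → ℕ} {c z : ℕ → P}

lemma testBit_false {a n : ℕ} (h : a < 2 ^ n) {b : ℕ} (hb : n ≤ b) : a.testBit b = false :=
  Nat.testBit_lt_two_pow (lt_of_lt_of_le h (Nat.pow_le_pow_right (by norm_num) hb))

/-- more cells -/
theorem cod_append (C : Cod n cv lv c) (hn : ∀ a < n, cv a < 2 ^ n) (hx : ∀ k < K, cx k < 2 ^ n)
    (h1 : ∀ a < n, cv' a = cv a) (h2 : ∀ a < n, lv' a = lv a)
    (h3 : ∀ k < K, cv' (n + k) = cx k) (h4 : ∀ k < K, lv' (n + k) = lx k)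
    (hinj : ∀ a < K, ∀ b < K, z a = z b → a = b) (hne : ∀ a < n, ∀ b < K, c a ≠ z b)
    (hcov : ∀ k < K, ∀ y, z k ⋖ y ↔ ∃ b < n, (cx k).testBit b = true ∧ c b = y)
    (hlev : ∀ k < K, GaussPoset.lev (z k) = lx k) :
    Cod (n + K) cv' lv' (fun a => if a < n then c a else z (a - n)) := by
  have hc1 : ∀ a, a < n → (if a < n then c a else z (a - n)) = c a := fun a ha => if_pos ha
  have hc2 : ∀ a, ¬ a < n → (if a < n then c a else z (a - n)) = z (a - n) := fun a ha => if_neg ha
  refine ⟨?_, ?_, ?_⟩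
  · intro a ha b hb h
    by_cases han : a < n <;> by_cases hbn : b < n
    · rw [hc1 a han, hc1 b hbn] at h
      exact C.inj a han b hbn h
    · rw [hc1 a han, hc2 b hbn] at h
      exact absurd h (hne a han _ (by omega))
    · rw [hc2 a han, hc1 b hbn] at h
      exact absurd h.symm (hne b hbn _ (by omega))
    · rw [hc2 a han, hc2 b hbn] at h
      have := hinj _ (by omega) _ (by omega) h
      omega
  · intro a ha y
    by_cases han : a < n
    · simp only [hc1 a han]
      rw [C.cov a han y, h1 a han]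
      constructor
      · rintro ⟨b, hb, hbit, rfl⟩
        exact ⟨b, by omega, hbit, hc1 b hb⟩
      · rintro ⟨b, hb, hbit, rfl⟩
        have hbn : b < n := by
          by_contra hcon
          rw [testBit_false (hn a han) (not_lt.mp hcon)] at hbit
          exact absurd hbit (by simp)
        exact ⟨b, hbn, hbit, (hc1 b hbn).symm⟩
    · simp only [hc2 a han]
      have e : cv' a = cx (a - n) := by
        have := h3 (a - n) (by omega)
        rwa [show n + (a - n) = a by omega] at this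
      rw [hcov _ (by omega) y, e]
      constructor
      · rintro ⟨b, hb, hbit, rfl⟩
        exact ⟨b, by omega, hbit, hc1 b hb⟩
      · rintro ⟨b, hb, hbit, rfl⟩
        have hbn : b < n := by
          by_contra hcon
          rw [testBit_false (hx _ (by omega)) (not_lt.mp hcon)] at hbit
          exact absurd hbit (by simp)
        exact ⟨b, hbn, hbit, (hc1 b hbn).symm⟩
  · intro a ha
    by_cases han : a < n
    · simp only [hc1 a han]
      rw [C.lev a han, h2 a han]
    · simp only [hc2 a han]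
      have e := h4 (a - n) (by omega)
      rw [show n + (a - n) = a by omega] at e
      rw [hlev _ (by omega), e]

/-- the elements above a cell are cells -/
lemma cod_above (C : Cod n cv lv c) {a : ℕ} (ha : a < n) {y : P} (hy : c a ≤ y) :
    ∃ b < n, c b = y := by
  classical
  have hup : Up ((range n).image c) := by
    refine Cl.up_of_cov fun x hx y hxy => ?_
    obtain ⟨b, hb, rfl⟩ := mem_image.mp hx
    obtain ⟨d, hd, -, rfl⟩ := (C.cov b (mem_range.mp hb) y).mp hxy
    exact mem_image_of_mem c (mem_range.mpr hd)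
  obtain ⟨b, hb, h⟩ := mem_image.mp (hup _ (mem_image_of_mem c (mem_range.mpr ha)) y hy)
  exact ⟨b, mem_range.mp hb, h⟩

/-- the cost of an element whose covers are coded -/
lemma cod_ct {um : ℕ → ℕ} (C : Cod n cv lv c) (hcv : ∀ a < n, cv a < 2 ^ a)
    (hum : ∀ a < n, um a = Nat.lor (2 ^ a) (orM um n (cv a))) {z : P} {m : ℕ}
    (hz : ∀ y, z ⋖ y ↔ ∃ b < n, m.testBit b = true ∧ c b = y) (i k : ℕ) :
    ct i k z = min k (GaussPoset.lev z - i) + ∑ b ∈ (range n).filter
      (fun b => (orM um n m).testBit b = true), min k (lv b - i) := by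
  classical
  rw [ct_succ]
  congr 1
  have hlt : ∀ y, z < y ↔ ∃ b < n, (orM um n m).testBit b = true ∧ c b = y := by
    intro y
    constructor
    · intro h
      obtain ⟨v, hv, hvy⟩ := Hul.exists_cov h
      obtain ⟨a, ha, hab, rfl⟩ := (hz v).mp hv
      obtain ⟨b, hb, rfl⟩ := cod_above C ha hvy
      exact ⟨b, hb, (orM_testBit _ _ _ _).mpr
        ⟨a, ha, hab, (C.le_iff le_rfl hcv hum ha hb).mp hvy⟩, rfl⟩
    · rintro ⟨b, hb, hbit, rfl⟩
      obtain ⟨a, ha, hab, h1⟩ := (orM_testBit _ _ _ _).mp hbit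
      exact ((hz (c a)).mpr ⟨a, ha, hab, rfl⟩).lt.trans_le ((C.le_iff le_rfl hcv hum ha hb).mpr h1)
  rw [← Finset.sum_filter]
  symm
  refine Finset.sum_bij (fun b _ => c b) ?_ ?_ ?_ ?_
  · intro b hb
    rw [mem_filter, mem_range] at hb
    rw [mem_filter]
    exact ⟨mem_univ _, (hlt _).mpr ⟨b, hb.1, hb.2, rfl⟩⟩
  · intro b hb b' hb' h
    rw [mem_filter, mem_range] at hb hb'
    exact C.inj b hb.1 b' hb'.1 h
  · intro y hy
    rw [mem_filter] at hy
    obtain ⟨b, hb, hbit, rfl⟩ := (hlt y).mp hy.2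
    exact ⟨b, mem_filter.mpr ⟨mem_range.mpr hb, hbit⟩, rfl⟩
  · intro b hb
    rw [mem_filter, mem_range] at hb
    rw [C.lev b hb.1]

end Append

/-! ### the strip `La7` -/

section La7

variable {r : ℕ} {t : P} {lo hi : ℕ → ℕ} {e : ℕ → ℕ → P}

/-- the cells of the strip -/
def ce (e : ℕ → ℕ → P) (a : ℕ) : P := e (La7lv.getD a 0) (La7sl.getD a 0)

lemma La7_cod (D : WordD 14 7 wa7 lo hi) (C : Cp.Comp 14 t lo hi e) (H : Gr P r)
    (hg : ∀ l, l < 14 → Win.Good P l) (ht : lev t = 0) :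
    Cod 30 (fun a => La7cv.getD a 0) (fun a => La7lv.getD a 0) (ce e) := by
  obtain ⟨h1, h2⟩ := D.rows C
  exact La7_strip.cod C H hg ht le_rfl h1 h2

lemma La7_surj (D : WordD 14 7 wa7 lo hi) (C : Cp.Comp 14 t lo hi e) {x : P}
    (hx : x ≤ t) (hl : lev x ≤ 14) : ∃ a < 30, ce e a = x := by
  obtain ⟨h1, h2⟩ := D.rows C
  exact La7_strip.surj' C le_rfl h1 h2 (mem_lowPart.mpr ⟨hx, hl⟩)

lemma La7_le (D : WordD 14 7 wa7 lo hi) (C : Cp.Comp 14 t lo hi e) {a : ℕ} (ha : a < 30) :
    ce e a ≤ t ∧ lev (ce e a) = La7lv.getD a 0 := by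
  obtain ⟨h1, h2⟩ := D.rows C
  have h3 := La7_strip.row a ha
  have h4 : La7lv.getD a 0 ≤ 14 := by
    have h : ∀ a < 30, La7lv.getD a 0 ≤ 14 := by decide +kernel
    exact h a ha
  rw [← h1 _ h4, ← h2 _ h4] at h3
  exact ⟨C.le_t _ _ h4 h3.1 h3.2, C.lev_e _ _ h4 h3.1 h3.2⟩

lemma La7_um : ∀ a < 30, La7um.getD a 0 = Nat.lor (2 ^ a)
    (orM (fun a => La7um.getD a 0) 30 (La7cv.getD a 0)) := by decide +kernel

/-- the masks of the elements of level 15 -/
def msk : List ℕ := [536870912, 268435456, 134217728, 67108864, 33554432, 805306368, 402653184,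
  201326592, 100663296, 570425344]

lemma msk_one : ∀ a < 30, 25 ≤ a → 2 ^ a ∈ msk := by decide +kernel

lemma msk_two : ∀ a < 30, ∀ b < 30, 25 ≤ a → 25 ≤ b → a ≠ b →
    (b = a + 1 ∨ a = b + 1 ∨ (a = 25 ∧ b = 29) ∨ (a = 29 ∧ b = 25)) →
    Nat.lor (2 ^ a) (2 ^ b) ∈ msk := by decide +kernel

lemma La7_lv14 : ∀ a < 30, La7lv.getD a 0 = 14 → 25 ≤ a := by decide +kernel

lemma La7_adj : ∀ a < 30, ∀ b < 30, 25 ≤ a → 25 ≤ b → a ≠ b →
    (∃ k < 30, (La7cv.getD a 0).testBit k = true ∧ (La7cv.getD b 0).testBit k = true) →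
    b = a + 1 ∨ a = b + 1 := by decide +kernel

lemma La7_two : ∀ a < 30, 25 ≤ a → a ≠ 25 → a ≠ 29 → ∃ k < 30, ∃ k' < 30, k ≠ k' ∧
    (La7cv.getD a 0).testBit k = true ∧ (La7cv.getD a 0).testBit k' = true := by decide +kernel

/-- **The elements of level 15 below the strip only.** -/
theorem La7_msk (D : WordD 14 7 wa7 lo hi) (C : Cp.Comp 14 t lo hi e) (hgt : GoodTo P r 14)
    (ht : lev t = 0) {z : P} (hz : lev z = 15) (hzt : ∀ y, z ⋖ y → y ≤ t) :
    ∃ m ∈ msk, ∀ y, z ⋖ y ↔ ∃ b < 30, m.testBit b = true ∧ ce e b = y := by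
  classical
  have hC := La7_cod D C hgt.H hgt.good ht
  have hlev : ∀ y, z ⋖ y → lev y = 14 := by
    intro y hy
    have := (hgt.H.covBy_iff.mp hy).2
    omega
  have hcell : ∀ y, z ⋖ y → ∃ a < 30, 25 ≤ a ∧ ce e a = y := by
    intro y hy
    obtain ⟨a, ha, rfl⟩ := La7_surj D C (hzt y hy) (hlev y hy).le
    refine ⟨a, ha, La7_lv14 a ha ?_, rfl⟩
    rw [← (La7_le D C ha).2]
    exact hlev _ hy
  rcases uc_card_cases hgt.H (x := z) (by omega) with h1 | h1
  · obtain ⟨y, hy⟩ := Finset.card_eq_one.mp h1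
    have hzy : ∀ y', z ⋖ y' ↔ y' = y := by
      intro y'
      rw [← mem_uc, hy, mem_singleton]
    obtain ⟨a, ha, ha25, rfl⟩ := hcell y ((hzy y).mpr rfl)
    refine ⟨2 ^ a, msk_one a ha ha25, fun y' => ?_⟩
    rw [hzy]
    constructor
    · rintro rfl
      exact ⟨a, ha, Nat.testBit_two_pow_self, rfl⟩
    · rintro ⟨b, hb, hbit, rfl⟩
      by_cases hab : a = b
      · rw [hab]
      · rw [Nat.testBit_two_pow_of_ne hab] at hbit
        exact absurd hbit (by simp)
  · obtain ⟨y, y', hne, hy⟩ := Finset.card_eq_two.mp h1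
    have hzy : ∀ w, z ⋖ w ↔ w = y ∨ w = y' := by
      intro w
      rw [← mem_uc, hy, mem_insert, mem_singleton]
    have c1 := (hzy y).mpr (Or.inl rfl)
    have c2 := (hzy y').mpr (Or.inr rfl)
    obtain ⟨a, ha, ha25, rfl⟩ := hcell y c1
    obtain ⟨b, hb, hb25, rfl⟩ := hcell y' c2
    have hab : a ≠ b := fun h => hne (by rw [h])
    have hadj : b = a + 1 ∨ a = b + 1 ∨ (a = 25 ∧ b = 29) ∨ (a = 29 ∧ b = 25) := by
      rcases (near_level' hgt (by norm_num)).1 z _ _ hz c1 c2 hne with h2 | ⟨h2, h3, -⟩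
      · have h4 : 0 < ucv (ce e a) (ce e b) := by omega
        unfold ucv at h4
        obtain ⟨u, hu⟩ := Finset.card_pos.mp h4
        rw [mem_filter] at hu
        obtain ⟨k, hk, hk1, hk2⟩ := (hC.cov a ha u).mp hu.2.1
        obtain ⟨k', hk', hk3, hk4⟩ := (hC.cov b hb u).mp hu.2.2
        have hkk : k' = k := hC.inj k' hk' k hk (hk4.trans hk2.symm)
        rw [hkk] at hk3
        rcases La7_adj a ha b hb ha25 hb25 hab ⟨k, hk, hk1, hk3⟩ with h5 | h5
        · exact Or.inl h5
        · exact Or.inr (Or.inl h5)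
      · have key : ∀ d < 30, 25 ≤ d → (Win.uc (ce e d)).card = 1 → d = 25 ∨ d = 29 := by
          intro d hd hd25 h4
          by_contra hcon
          push Not at hcon
          obtain ⟨k, hk, k', hk', hkk, b1, b2⟩ := La7_two d hd hd25 hcon.1 hcon.2
          obtain ⟨w, hw⟩ := Finset.card_eq_one.mp h4
          have e1 : ce e k ∈ Win.uc (ce e d) := mem_uc.mpr ((hC.cov d hd _).mpr ⟨k, hk, b1, rfl⟩)
          have e2 : ce e k' ∈ Win.uc (ce e d) := mem_uc.mpr ((hC.cov d hd _).mpr ⟨k', hk', b2, rfl⟩)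
          rw [hw, mem_singleton] at e1 e2
          exact hkk (hC.inj k hk k' hk' (e1.trans e2.symm))
        rcases key a ha ha25 h2 with h5 | h5 <;> rcases key b hb hb25 h3 with h6 | h6
        · omega
        · exact Or.inr (Or.inr (Or.inl ⟨h5, h6⟩))
        · exact Or.inr (Or.inr (Or.inr ⟨h5, h6⟩))
        · omega
    refine ⟨Nat.lor (2 ^ a) (2 ^ b), msk_two a ha b hb ha25 hb25 hab hadj, fun w => ?_⟩
    rw [hzy]
    have hbit : ∀ k, (Nat.lor (2 ^ a) (2 ^ b)).testBit k = true ↔ k = a ∨ k = b := by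
      intro k
      have h5 : (Nat.lor (2 ^ a) (2 ^ b)).testBit k = ((2 ^ a).testBit k || (2 ^ b).testBit k) :=
        Nat.testBit_or _ _ _
      rw [h5, Bool.or_eq_true]
      constructor
      · rintro (h | h)
        · left
          by_contra hne'
          rw [Nat.testBit_two_pow_of_ne (Ne.symm hne')] at h
          exact absurd h (by simp)
        · right
          by_contra hne'
          rw [Nat.testBit_two_pow_of_ne (Ne.symm hne')] at h
          exact absurd h (by simp)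
      · rintro (rfl | rfl)
        · exact Or.inl Nat.testBit_two_pow_self
        · exact Or.inr Nat.testBit_two_pow_self
    constructor
    · rintro (rfl | rfl)
      · exact ⟨a, ha, (hbit a).mpr (Or.inl rfl), rfl⟩
      · exact ⟨b, hb, (hbit b).mpr (Or.inr rfl), rfl⟩
    · rintro ⟨k, hk, hk2, rfl⟩
      rcases (hbit k).mp hk2 with rfl | rfl
      · exact Or.inl rfl
      · exact Or.inr rfl

/-- the cost of an element of level 15 -/
lemma La7_ct (D : WordD 14 7 wa7 lo hi) (C : Cp.Comp 14 t lo hi e) (hgt : GoodTo P r 14)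
    (ht : lev t = 0) {z : P} (hz : lev z = 15) {m : ℕ}
    (hm : ∀ y, z ⋖ y ↔ ∃ b < 30, m.testBit b = true ∧ ce e b = y) (k : ℕ) :
    ct 7 k z = min k 8 + ∑ b ∈ (range 30).filter
      (fun b => (orM (fun a => La7um.getD a 0) 30 m).testBit b = true),
        min k (La7lv.getD b 0 - 7) := by
  rw [cod_ct (La7_cod D C hgt.H hgt.good ht) La7_us.cv La7_um hm, hz]

/-- the costs of the labels two and three -/
lemma msk_cost : ∀ m ∈ msk, m.testBit 29 = false → (m = 33554432 ∨
    26 ≤ min 2 8 + ∑ b ∈ (range 30).filter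
      (fun b => (orM (fun a => La7um.getD a 0) 30 m).testBit b = true),
        min 2 (La7lv.getD b 0 - 7)) := by decide +kernel

/-- the pendant below the last cell -/
lemma msk_cost4 : 26 ≤ min 3 8 + ∑ b ∈ (range 30).filter
      (fun b => (orM (fun a => La7um.getD a 0) 30 33554432).testBit b = true),
        min 3 (La7lv.getD b 0 - 7) := by decide +kernel

end La7

end Pool.Agent.GaussPoset.Sg
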