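import Pool.Agent.W_448s14_h94.SgB
import Pool.Agent.W_448s14_h94.SgC
import Pool.Agent.W_448s14_h94.SgD
import Pool.Agent.W_448s14_h94.SgE
import Pool.Agent.W_448s14_h94.SgG

/-!
The strip `La7` with elements of level 15: local data and the value at the energy 25.
-/

namespace Pool.Agent.GaussPoset.Sg

set_option linter.unusedSectionVars false
set_option synthInstance.maxSize 1000

open Polynomial Finset Cl Dd Wd Win

universe u

variable {P : Type u} [Fintype P] [PartialOrder P] [DecidableEq P]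
variable {r : ℕ} {t : P} {lo hi : ℕ → ℕ} {e : ℕ → ℕ → P}

/-- the covers of `z` are the cells of the mask `m` -/
def Mk (e : ℕ → ℕ → P) (z : P) (m : ℕ) : Prop :=
  lev z = 15 ∧ ∀ y, z ⋖ y ↔ ∃ b < 30, m.testBit b = true ∧ ce e b = y

/-- the cells with more elements -/
def cz (e : ℕ → ℕ → P) (z : ℕ → P) (a : ℕ) : P := if a < 30 then ce e a else z (a - 30)

lemma cz_29 (z : ℕ → P) : cz e z 29 = ce e 29 := if_pos (by norm_num)

lemma La7_cv30 : ∀ a < 30, La7cv.getD a 0 < 2 ^ 30 := by decide +kernel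

/-- the code of the strip with more elements -/
theorem La7_ext (D : WordD 14 7 wa7 lo hi) (C : Cp.Comp 14 t lo hi e) (hgt : GoodTo P r 14)
    (ht : lev t = 0) {K : ℕ} {z : ℕ → P} {cx : ℕ → ℕ} {cvL lvL : List ℕ}
    (h1 : ∀ a < 30, cvL.getD a 0 = La7cv.getD a 0) (h2 : ∀ a < 30, lvL.getD a 0 = La7lv.getD a 0)
    (h3 : ∀ k < K, cvL.getD (30 + k) 0 = cx k) (h4 : ∀ k < K, lvL.getD (30 + k) 0 = 15)
    (hx : ∀ k < K, cx k < 2 ^ 30) (hinj : ∀ a < K, ∀ b < K, z a = z b → a = b)
    (hz : ∀ k < K, Mk e (z k) (cx k)) :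
    Cod (30 + K) (fun a => cvL.getD a 0) (fun a => lvL.getD a 0) (cz e z) := by
  have hC := La7_cod D C hgt.H hgt.good ht
  refine cod_append hC La7_cv30 hx h1 h2 h3 h4 hinj ?_ (fun k hk => (hz k hk).2)
    (fun k hk => (hz k hk).1)
  intro a ha b hb h
  have h5 := (La7_le D C ha).2
  rw [h, (hz b hb).1] at h5
  have h6 : ∀ a < 30, La7lv.getD a 0 ≤ 14 := by decide +kernel
  have := h6 a ha
  omega

/-- the elements of the extended strip -/
lemma La7_mem (D : WordD 14 7 wa7 lo hi) (C : Cp.Comp 14 t lo hi e) {K : ℕ} {z : ℕ → P}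
    {A : Finset P} (hA : ∀ x, x ∈ A ↔ ∃ k < K, z k = x) (x : P) :
    x ∈ lowPart 14 t ∪ A ↔ ∃ a < 30 + K, cz e z a = x := by
  classical
  rw [mem_union, hA]
  constructor
  · rintro (h | ⟨k, hk, rfl⟩)
    · rw [mem_lowPart] at h
      obtain ⟨a, ha, rfl⟩ := La7_surj D C h.1 h.2
      exact ⟨a, by omega, if_pos ha⟩
    · refine ⟨30 + k, by omega, ?_⟩
      unfold cz
      rw [if_neg (by omega), Nat.add_sub_cancel_left]
  · rintro ⟨a, ha, rfl⟩
    by_cases h : a < 30
    · left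
      have h1 := La7_le D C h
      have h6 : ∀ a < 30, La7lv.getD a 0 ≤ 14 := by decide +kernel
      have := h6 a h
      rw [mem_lowPart]
      unfold cz
      rw [if_pos h]
      exact ⟨h1.1, by omega⟩
    · right
      refine ⟨a - 30, by omega, ?_⟩
      unfold cz
      rw [if_neg h]

/-- counting the elements of a coded set by the level -/
lemma cod_count {n : ℕ} {cv lv : ℕ → ℕ} {c : ℕ → P} (C : Cod n cv lv c) {S : Finset P}
    (hS : ∀ y, y ∈ S ↔ ∃ a < n, c a = y) (g : ℕ → Prop) [DecidablePred g] :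
    (univ.filter (fun y : {y : P // y ∈ S} => g (GaussPoset.lev y))).card =
      ((range n).filter (fun a => g (lv a))).card := by
  classical
  have hup : Up S := by
    intro x hx y hxy
    rw [hS] at hx ⊢
    obtain ⟨a, ha, rfl⟩ := hx
    exact cod_above C ha hxy
  have hlv : ∀ y : {y : P // y ∈ S}, GaussPoset.lev y = GaussPoset.lev (y : P) :=
    lev_subtype (p := fun y => y ∈ S) (fun x y hxy hx => hup x hx y hxy)
  rw [Finset.card_filter, Finset.card_filter]
  have h1 : S = (range n).image c := by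
    ext x
    rw [hS, mem_image]
    simp only [mem_range]
  have h2 : ∑ y : {y : P // y ∈ S}, (if g (GaussPoset.lev (y : P)) then 1 else 0)
      = ∑ y ∈ S, (if g (GaussPoset.lev y) then 1 else 0) :=
    Finset.sum_coe_sort S (fun y => if g (GaussPoset.lev y) then 1 else 0)
  have h3 : ∑ y : {y : P // y ∈ S}, (if g (GaussPoset.lev y) then 1 else 0) =
      ∑ y : {y : P // y ∈ S}, (if g (GaussPoset.lev (y : P)) then 1 else 0) :=
    Finset.sum_congr rfl fun y _ => by rw [hlv]
  rw [h3, h2, h1, Finset.sum_image]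
  · refine Finset.sum_congr rfl fun a ha => ?_
    rw [C.lev a (mem_range.mp ha)]
  · intro a ha b hb h
    exact C.inj a (mem_range.mp (Finset.mem_coe.mp ha)) b
      (mem_range.mp (Finset.mem_coe.mp hb)) h

/-- the value of a complete coded set with the value `-c` -/
theorem full_pl {n N : ℕ} {cv lv : ℕ → ℕ} {c : ℕ → P} (C : Cod n cv lv c) {Us : List ℕ}
    (hU : UsOK N cv Us) (hn : n ≤ N) {B K : ℕ} {PL : List (ℕ × ℕ × ℕ × ℕ × ℕ)}
    (h : polC N B K Us 7 PL = true) {x : ℕ × ℕ × ℕ × ℕ × ℕ} (hx : x ∈ PL) (hJ : x.1 ∈ Us)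
    (hJn : x.1 = 2 ^ n - 1) (hnum : numC N K 7 25 lv x = true)
    (hs : sgn x.2.1 x.2.2.1 7 = -1) {S : Finset P} (hS : ∀ y, y ∈ S ↔ ∃ a < n, c a = y)
    (h7 : ((range n).filter (fun a => lv a < 7)).card = 7)
    (h8 : ((range n).filter (fun a => lv a = 7)).card = 2)
    {f : Polynomial (PowerSeries ℤ)} (hf : ∀ n, exq n f = Z {y : P // y ∈ S} 7 n) :
    Pl 25 2 (x.2.2.2.2 : ℤ) f := by
  classical
  have hbits : ∀ a < n, x.1.testBit a = true := by
    intro a ha
    rw [hJn]
    rw [Nat.testBit_two_pow_sub_one]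
    simpa using ha
  have hSe : toS n c x.1 = S := by
    ext y
    rw [mem_toS, hS]
    constructor
    · rintro ⟨a, ha, -, h1⟩
      exact ⟨a, ha, h1⟩
    · rintro ⟨a, ha, h1⟩
      exact ⟨a, ha, hbits a ha, h1⟩
  have hJ2 : x.1 < 2 ^ n := by
    have : 0 < 2 ^ n := Nat.two_pow_pos n
    omega
  have h10 := cod_val C hU hn h hx hJ hJ2 hnum
  rw [hSe] at h10
  obtain ⟨h11, s, h12, h13⟩ := h10
  rw [hs] at h13
  have hbelow : below {y : P // y ∈ S} 7 = 7 := by
    unfold below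
    rw [cod_count C hS (fun l => l < 7)]
    exact h7
  have hlv7 : (GaussPoset.lv {y : P // y ∈ S} 7).card = 2 := by
    unfold GaussPoset.lv
    rw [cod_count C hS (fun l => l = 7)]
    exact h8
  have h0 : exq 0 f = X ^ 7 * (1 + X) ^ 2 := by
    rw [hf, Z_zero, hbelow, hlv7]
  refine ⟨fun m hm => ?_, by norm_num, X ^ 7, s, by rw [h0, mul_comm], ?_, ?_, ?_⟩
  · rw [hf]
    exact h11 m hm
  · rw [eval_pow, eval_X]
    norm_num
  · rw [hf, h12]
    simp
  · rw [h13, eval_pow, eval_X]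
    norm_num

/-- order two also at the energy 25 -/
theorem zero_pl {b : ℕ} (hb : 1 ≤ b) {S : Finset P}
    (h : ∀ n < 26, (1 + X : ℤ[X]) ^ b ∣ Z {y : P // y ∈ S} 7 n) {v : ℤ[X]}
    (hv : Z {y : P // y ∈ S} 7 0 = (1 + X) ^ b * v) (hv1 : v.eval (-1) ≠ 0)
    {f : Polynomial (PowerSeries ℤ)} (hf : ∀ n, exq n f = Z {y : P // y ∈ S} 7 n) :
    Pl 25 b 0 f := by
  refine ⟨fun m hm => ?_, hb, v, 0, by rw [hf, hv], hv1, ?_, ?_⟩
  · rw [hf]
    exact h m (by omega)
  · rw [mul_zero, sub_zero, hf]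
    exact h 25 (by omega)
  · rw [eval_zero, zero_mul]

/-- what is used about an extended strip: local data, the value at the energy 25, the thresholds
of the cells and of the other elements -/
structure Ext (e : ℕ → ℕ → P) (S A : Finset P) (θ : P → ℕ) (ρ : ℤ) : Prop where
  loc : LocL 7 2 25 S θ (fun x => x = ce e 29)
  pl : ∀ f : Polynomial (PowerSeries ℤ), (∀ n, exq n f = Z {y : P // y ∈ S} 7 n) → Pl 25 2 ρ f
  one : ∀ a, 26 ≤ a → a < 29 → 1 ≤ θ (ce e a)
  four : 1 ≤ θ (ce e 25)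
  ex : ∀ x ∈ A, ∃ m ∈ [805306368, 570425344, 33554432], Mk e x m ∧ 1 ≤ θ x ∧
    (m = 33554432 → 2 ≤ θ x)

section Pats

variable (D : WordD 14 7 wa7 lo hi) (C : Cp.Comp 14 t lo hi e) (hgt : GoodTo P r 14)
  (ht : lev t = 0)

include D C hgt ht in
/-- elements below the first two cells only -/
theorem pat_a {K : ℕ} (hK : K ≤ 2) {z : ℕ → P} (hinj : ∀ a < K, ∀ b < K, z a = z b → a = b)
    (hz : ∀ k < K, Mk e (z k) 805306368) {A : Finset P} (hA : ∀ x, x ∈ A ↔ ∃ k < K, z k = x) :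
    ∃ θ : P → ℕ, Ext e (lowPart 14 t ∪ A) A θ 0 ∧ 2 ≤ θ (ce e 25) := by
  have g3 : ∀ k < 2, Pacv.getD (30 + k) 0 = 805306368 := by decide +kernel
  have g4 : ∀ k < 2, Palv.getD (30 + k) 0 = 15 := by decide +kernel
  have hcod := La7_ext D C hgt ht (K := K) (z := z) (cx := fun _ => 805306368) (cvL := Pacv)
    (lvL := Palv) (by decide +kernel) (by decide +kernel) (fun k hk => g3 k (by omega))
    (fun k hk => g4 k (by omega)) (fun _ _ => by norm_num) hinj hz
  have hS := La7_mem D C (z := z) hA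
  have hl : LocL 7 2 26 (lowPart 14 t ∪ A) (thI (30 + K) (cz e z) (fun a => Path.getD a 0))
      (fun x => x = cz e z 29) :=
    cod_locL' hcod Pa_us (by omega) Pa_th (by omega) hS Pa_pol Pa_low
      (fun x hx => List.mem_append_left _ hx) Pa_bm
      (lt_of_lt_of_le (by norm_num) (Nat.pow_le_pow_right (by norm_num) (show 30 ≤ 30 + K by omega)))
  rw [cz_29] at hl
  have hth : ∀ a < 30, thI (30 + K) (cz e z) (fun a => Path.getD a 0) (ce e a) =
      Path.getD a 0 := by
    intro a ha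
    have h1 := thI_c hcod (fun a => Path.getD a 0) (a := a) (by omega)
    rwa [show cz e z a = ce e a from if_pos ha] at h1
  have hth' : ∀ k < K, thI (30 + K) (cz e z) (fun a => Path.getD a 0) (z k) =
      Path.getD (30 + k) 0 := by
    intro k hk
    have h1 := thI_c hcod (fun a => Path.getD a 0) (a := 30 + k) (by omega)
    rwa [show cz e z (30 + k) = z k by
      unfold cz; rw [if_neg (by omega), Nat.add_sub_cancel_left]] at h1
  refine ⟨_, ⟨⟨fun U h1 h2 h3 h4 n hn => hl.clean U h1 h2 h3 h4 n (by omega), hl.lev, hl.base,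
    hl.step, hl.le⟩, ?_, ?_, ?_, ?_⟩, ?_⟩
  · intro f hf
    have hup : ∀ x ∈ lowPart 14 t ∪ A, ∀ y, x ≤ y → y ∈ lowPart 14 t ∪ A := by
      intro x hx y hxy
      rw [hS] at hx ⊢
      obtain ⟨a, ha, rfl⟩ := hx
      exact cod_above hcod ha hxy
    have h7 : ∀ K ≤ 2, ((range (30 + K)).filter (fun a => Palv.getD a 0 < 7)).card = 7 ∧
        ((range (30 + K)).filter (fun a => Palv.getD a 0 = 7)).card = 2 := by decide +kernel
    refine zero_pl (by norm_num) (fun n hn => hl.clean _ (Finset.Subset.refl _) hup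
      (fun x hx _ => hx) (fun x hx _ => hx) n hn) (v := X ^ 7) ?_ ?_ hf
    · rw [Z_zero, mul_comm]
      have hbelow : below {y : P // y ∈ lowPart 14 t ∪ A} 7 = 7 := by
        unfold below
        rw [cod_count hcod hS (fun l => l < 7)]
        exact (h7 K hK).1
      have hlv7 : (GaussPoset.lv {y : P // y ∈ lowPart 14 t ∪ A} 7).card = 2 := by
        unfold GaussPoset.lv
        rw [cod_count hcod hS (fun l => l = 7)]
        exact (h7 K hK).2
      rw [hbelow, hlv7]
    · rw [eval_pow, eval_X]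
      norm_num
  · intro a h1 h2
    rw [hth a (by omega)]
    have h3 : ∀ a < 29, 26 ≤ a → 1 ≤ Path.getD a 0 := by decide +kernel
    exact h3 a h2 h1
  · rw [hth 25 (by norm_num)]
    decide +kernel
  · intro x hx
    obtain ⟨k, hk, rfl⟩ := (hA x).mp hx
    refine ⟨805306368, by decide, hz k hk, ?_, fun h => absurd h (by norm_num)⟩
    rw [hth' k hk]
    have h3 : ∀ k < 2, 1 ≤ Path.getD (30 + k) 0 := by decide +kernel
    exact h3 k (by omega)
  · rw [hth 25 (by norm_num)]
    decide +kernel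

end Pats

end Pool.Agent.GaussPoset.Sg
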