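import Pool.Agent.W_448s14_h94.SgH

/-!
The strip `La7` with elements of level 15 below the ends: the value at the energy 25 is positive.
-/

namespace Pool.Agent.GaussPoset.Sg

set_option linter.unusedSectionVars false
set_option synthInstance.maxSize 1000

open Polynomial Finset Cl Dd Wd Win

universe u

variable {P : Type u} [Fintype P] [PartialOrder P] [DecidableEq P]
variable {r : ℕ} {t : P} {lo hi : ℕ → ℕ} {e : ℕ → ℕ → P}

section Pats

variable (D : WordD 14 7 wa7 lo hi) (C : Cp.Comp 14 t lo hi e) (hgt : GoodTo P r 14)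
  (ht : lev t = 0)

include D C hgt ht in
/-- a pattern from a certificate -/
theorem pat_g {N Kc : ℕ} {Us cvL lvL umL thL : List ℕ} {L F : List (ℕ × ℕ × ℕ × ℕ × ℕ)}
    (hus : UsOK N (fun a => cvL.getD a 0) Us) (hpol : polC N (2 ^ 100) Kc Us 7 (L ++ F) = true)
    (hlow : lowC N Kc 7 24 (fun a => lvL.getD a 0) Us 554849791 L = true)
    (hth : thChk N 7 29 (fun a => lvL.getD a 0) (fun a => cvL.getD a 0)
      (fun a => umL.getD a 0) (fun a => thL.getD a 0) = true)
    (hbm : bmC N 7 29 554849791 (fun a => lvL.getD a 0) (fun a => umL.getD a 0) = true)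
    (hnum : ∀ x ∈ F, numC N Kc 7 25 (fun a => lvL.getD a 0) x = true)
    (hmem : ∀ x ∈ F, x.1 ∈ Us)
    (h1 : ∀ a < 30, cvL.getD a 0 = La7cv.getD a 0) (h2 : ∀ a < 30, lvL.getD a 0 = La7lv.getD a 0)
    {K : ℕ} (hN : 30 + K ≤ N) {zf : ℕ → P} {cf : ℕ → ℕ}
    (h3 : ∀ k < K, cvL.getD (30 + k) 0 = cf k) (h4 : ∀ k < K, lvL.getD (30 + k) 0 = 15)
    (hx : ∀ k < K, cf k ∈ [805306368, 570425344, 33554432])
    (hinj : ∀ a < K, ∀ b < K, zf a = zf b → a = b)
    (hz : ∀ k < K, Mk e (zf k) (cf k)) {A : Finset P} (hA : ∀ x, x ∈ A ↔ ∃ k < K, zf k = x)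
    (hthr : (∀ a < 29, 25 ≤ a → 1 ≤ thL.getD a 0) ∧ ∀ k < K, 1 ≤ thL.getD (30 + k) 0 ∧
      (cf k = 33554432 → 2 ≤ thL.getD (30 + k) 0))
    {x : ℕ × ℕ × ℕ × ℕ × ℕ} (hxF : x ∈ F) (hxJ : x.1 = 2 ^ (30 + K) - 1)
    (hs : sgn x.2.1 x.2.2.1 7 = -1)
    (h7 : ((range (30 + K)).filter (fun a => lvL.getD a 0 < 7)).card = 7)
    (h8 : ((range (30 + K)).filter (fun a => lvL.getD a 0 = 7)).card = 2) :
    ∃ θ : P → ℕ, Ext e (lowPart 14 t ∪ A) A θ (x.2.2.2.2 : ℤ) := by
  have hx' : ∀ k < K, cf k < 2 ^ 30 := by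
    intro k hk
    have h : ∀ m ∈ [805306368, 570425344, 33554432], m < 2 ^ 30 := by decide
    exact h _ (hx k hk)
  have hcod := La7_ext D C hgt ht (K := K) (z := zf) (cx := cf) (cvL := cvL)
    (lvL := lvL) h1 h2 h3 h4 hx' hinj hz
  have hS := La7_mem D C (z := zf) hA
  have hl : LocL 7 2 25 (lowPart 14 t ∪ A) (thI (30 + K) (cz e zf) (fun a => thL.getD a 0))
      (fun x => x = cz e zf 29) :=
    cod_locL' hcod hus hN hth (by omega) hS hpol hlow
      (fun x hx => List.mem_append_left _ hx) hbm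
      (lt_of_lt_of_le (by norm_num) (Nat.pow_le_pow_right (by norm_num) (show 30 ≤ 30 + K by omega)))
  rw [cz_29] at hl
  have hth1 : ∀ a < 30, thI (30 + K) (cz e zf) (fun a => thL.getD a 0) (ce e a) =
      thL.getD a 0 := by
    intro a ha
    have h1 := thI_c hcod (fun a => thL.getD a 0) (a := a) (by omega)
    rwa [show cz e zf a = ce e a from if_pos ha] at h1
  have hth' : ∀ k < K, thI (30 + K) (cz e zf) (fun a => thL.getD a 0) (zf k) =
      thL.getD (30 + k) 0 := by
    intro k hk
    have h1 := thI_c hcod (fun a => thL.getD a 0) (a := 30 + k) (by omega)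
    rwa [show cz e zf (30 + k) = zf k by
      unfold cz; rw [if_neg (by omega), Nat.add_sub_cancel_left]] at h1
  refine ⟨_, ⟨hl, ?_, ?_, ?_, ?_⟩⟩
  · intro f hf
    exact full_pl hcod hus hN hpol (List.mem_append_right _ hxF) (hmem x hxF) hxJ (hnum x hxF) hs
      hS h7 h8 hf
  · intro a h1 h2
    rw [hth1 a (by omega)]
    exact hthr.1 a h2 (by omega)
  · rw [hth1 25 (by norm_num)]
    exact hthr.1 25 (by norm_num) le_rfl
  · intro y hy
    obtain ⟨k, hk, rfl⟩ := (hA y).mp hy
    refine ⟨cf k, hx k hk, hz k hk, ?_, ?_⟩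
    · rw [hth' k hk]
      exact (hthr.2 k hk).1
    · rw [hth' k hk]
      exact (hthr.2 k hk).2

include D C hgt ht in
/-- one element below the ends -/
theorem pat_b {z0 : P} (h0 : Mk e z0 570425344) {A : Finset P} (hA : ∀ x, x ∈ A ↔ x = z0) :
    ∃ θ : P → ℕ, Ext e (lowPart 14 t ∪ A) A θ 1 := by
  obtain ⟨θ, h⟩ := pat_g D C hgt ht Pb_us Pb_pol Pb_low Pb_th Pb_bm Pb_num Pb_mem
    (by decide +kernel) (by decide +kernel) (K := 1) (by norm_num)
    (zf := fun _ => z0)
    (cf := fun _ => 570425344) (by decide +kernel) (by decide +kernel) (by decide +kernel)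
    (fun a ha b hb _ => by omega) (fun _ _ => h0) (A := A)
    (fun x => by rw [hA]; exact ⟨fun h => ⟨0, by norm_num, h.symm⟩, fun ⟨_, _, h⟩ => h.symm⟩)
    (by decide +kernel) (x := (2147483647, 16, 15, 250, 1)) (by decide +kernel) (by norm_num)
    (by decide +kernel) (by decide +kernel) (by decide +kernel)
  exact ⟨θ, h⟩

/-- two elements in the order of the code -/
def two (a b : P) (k : ℕ) : P := if k = 0 then a else b

lemma two_inj {a b : P} (h : a ≠ b) : ∀ i < 2, ∀ j < 2, two a b i = two a b j → i = j := by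
  intro i hi j hj h1
  obtain rfl | rfl : i = 0 ∨ i = 1 := by omega
  · obtain rfl | rfl : j = 0 ∨ j = 1 := by omega
    · rfl
    · exact absurd h1 h
  · obtain rfl | rfl : j = 0 ∨ j = 1 := by omega
    · exact absurd h1.symm h
    · rfl

lemma two_mem {a b x : P} : (x = a ∨ x = b) ↔ ∃ k < 2, two a b k = x := by
  constructor
  · rintro (h | h)
    · exact ⟨0, by norm_num, h.symm⟩
    · exact ⟨1, by norm_num, h.symm⟩
  · rintro ⟨k, hk, h⟩
    obtain rfl | rfl : k = 0 ∨ k = 1 := by omega
    · exact Or.inl h.symm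
    · exact Or.inr h.symm

lemma two_all {p : P → ℕ → Prop} {a b : P} {m m' : ℕ} (h1 : p a m) (h2 : p b m') :
    ∀ k < 2, p (two a b k) (if k = 0 then m else m') := by
  intro k hk
  obtain rfl | rfl : k = 0 ∨ k = 1 := by omega
  · exact h1
  · exact h2

include D C hgt ht in
/-- one element below the ends, one below the first two cells -/
theorem pat_c {z0 z1 : P} (h0 : Mk e z0 570425344) (h1 : Mk e z1 805306368) (hne : z0 ≠ z1)
    {A : Finset P} (hA : ∀ x, x ∈ A ↔ x = z0 ∨ x = z1) :
    ∃ θ : P → ℕ, Ext e (lowPart 14 t ∪ A) A θ 1 := by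
  obtain ⟨θ, h⟩ := pat_g D C hgt ht Pb_us Pb_pol Pb_low Pb_th Pb_bm Pb_num Pb_mem
    (by decide +kernel) (by decide +kernel) (K := 2) (by norm_num)
    (zf := two z0 z1)
    (cf := fun k => if k = 0 then 570425344 else 805306368) (by decide +kernel)
    (by decide +kernel) (by decide +kernel)
    (two_inj hne) (two_all (p := fun x m => Mk e x m) h0 h1) (A := A)
    (fun x => by rw [hA]; exact two_mem)
    (by decide +kernel) (x := (4294967295, 16, 16, 273, 1)) (by decide +kernel) (by norm_num)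
    (by decide +kernel) (by decide +kernel) (by decide +kernel)
  exact ⟨θ, h⟩

include D C hgt ht in
/-- one element below the ends, one pendant -/
theorem pat_d {z0 z1 : P} (h0 : Mk e z0 570425344) (h1 : Mk e z1 33554432) (hne : z0 ≠ z1)
    {A : Finset P} (hA : ∀ x, x ∈ A ↔ x = z0 ∨ x = z1) :
    ∃ θ : P → ℕ, Ext e (lowPart 14 t ∪ A) A θ 1 := by
  obtain ⟨θ, h⟩ := pat_g D C hgt ht Pc_us Pc_pol Pc_low Pc_th Pc_bm Pc_num Pc_mem
    (by decide +kernel) (by decide +kernel) (K := 2) (by norm_num)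
    (zf := two z0 z1)
    (cf := fun k => if k = 0 then 570425344 else 33554432) (by decide +kernel)
    (by decide +kernel) (by decide +kernel)
    (two_inj hne) (two_all (p := fun x m => Mk e x m) h0 h1) (A := A)
    (fun x => by rw [hA]; exact two_mem)
    (by decide +kernel) (x := (4294967295, 16, 16, 273, 1)) (by decide +kernel) (by norm_num)
    (by decide +kernel) (by decide +kernel) (by decide +kernel)
  exact ⟨θ, h⟩

include D C hgt ht in
/-- two elements below the ends -/
theorem pat_f {z0 z1 : P} (h0 : Mk e z0 570425344) (h1 : Mk e z1 570425344) (hne : z0 ≠ z1)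
    {A : Finset P} (hA : ∀ x, x ∈ A ↔ x = z0 ∨ x = z1) :
    ∃ θ : P → ℕ, Ext e (lowPart 14 t ∪ A) A θ 2 := by
  obtain ⟨θ, h⟩ := pat_g D C hgt ht Pd_us Pd_pol Pd_low Pd_th Pd_bm Pd_num Pd_mem
    (by decide +kernel) (by decide +kernel) (K := 2) (by norm_num)
    (zf := two z0 z1)
    (cf := fun k => if k = 0 then 570425344 else 570425344) (by decide +kernel)
    (by decide +kernel) (by decide +kernel)
    (two_inj hne) (two_all (p := fun x m => Mk e x m) h0 h1) (A := A)
    (fun x => by rw [hA]; exact two_mem)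
    (by decide +kernel) (x := (4294967295, 16, 16, 273, 2)) (by decide +kernel) (by norm_num)
    (by decide +kernel) (by decide +kernel) (by decide +kernel)
  exact ⟨θ, h⟩

/-- three elements in the order of the code -/
def three (a b c : P) (k : ℕ) : P := if k = 0 then a else if k = 1 then b else c

include D C hgt ht in
/-- one element below the ends, one pendant, one below the first two cells -/
theorem pat_h {z0 z1 z2 : P} (h0 : Mk e z0 570425344) (h1 : Mk e z1 33554432)
    (h2 : Mk e z2 805306368) (h01 : z0 ≠ z1) (h02 : z0 ≠ z2) (h12 : z1 ≠ z2)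
    {A : Finset P} (hA : ∀ x, x ∈ A ↔ x = z0 ∨ x = z1 ∨ x = z2) :
    ∃ θ : P → ℕ, Ext e (lowPart 14 t ∪ A) A θ 1 := by
  obtain ⟨θ, h⟩ := pat_g D C hgt ht Pc_us Pc_pol Pc_low Pc_th Pc_bm Pc_num Pc_mem
    (by decide +kernel) (by decide +kernel) (K := 3) (by norm_num)
    (zf := three z0 z1 z2)
    (cf := fun k => if k = 0 then 570425344 else if k = 1 then 33554432 else 805306368)
    (by decide +kernel) (by decide +kernel) (by decide +kernel)
    (by
      intro i hi j hj h1
      obtain rfl | rfl | rfl : i = 0 ∨ i = 1 ∨ i = 2 := by omega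
      · obtain rfl | rfl | rfl : j = 0 ∨ j = 1 ∨ j = 2 := by omega
        · rfl
        · exact absurd h1 h01
        · exact absurd h1 h02
      · obtain rfl | rfl | rfl : j = 0 ∨ j = 1 ∨ j = 2 := by omega
        · exact absurd h1.symm h01
        · rfl
        · exact absurd h1 h12
      · obtain rfl | rfl | rfl : j = 0 ∨ j = 1 ∨ j = 2 := by omega
        · exact absurd h1.symm h02
        · exact absurd h1.symm h12
        · rfl)
    (by
      intro k hk
      obtain rfl | rfl | rfl : k = 0 ∨ k = 1 ∨ k = 2 := by omega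
      · exact h0
      · exact h1
      · exact h2) (A := A)
    (by
      intro x
      rw [hA]
      constructor
      · rintro (h | h | h)
        · exact ⟨0, by norm_num, h.symm⟩
        · exact ⟨1, by norm_num, h.symm⟩
        · exact ⟨2, by norm_num, h.symm⟩
      · rintro ⟨k, hk, h⟩
        obtain rfl | rfl | rfl : k = 0 ∨ k = 1 ∨ k = 2 := by omega
        · exact Or.inl h.symm
        · exact Or.inr (Or.inl h.symm)
        · exact Or.inr (Or.inr h.symm))
    (by decide +kernel) (x := (8589934591, 16, 17, 297, 1)) (by decide +kernel) (by norm_num)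
    (by decide +kernel) (by decide +kernel) (by decide +kernel)
  exact ⟨θ, h⟩

end Pats

end Pool.Agent.GaussPoset.Sg
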