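import Pool.Agent.W_448s14_h94.SgI

/-!
The strip `La7` at level 14: the set of the elements of level 15 which belong to the component.
-/

namespace Pool.Agent.GaussPoset.Sg

set_option linter.unusedSectionVars false
set_option synthInstance.maxSize 1000

open Polynomial Finset Cl Dd Wd Win

universe u

variable {P : Type u} [Fintype P] [PartialOrder P] [DecidableEq P]
variable {r : ℕ} {t : P} {lo hi : ℕ → ℕ} {e : ℕ → ℕ → P}

lemma Mk.cov {z : P} {m b : ℕ} (h : Mk e z m) (hb : b < 30) (hbit : m.testBit b = true) :
    z ⋖ ce e b := (h.2 _).mpr ⟨b, hb, hbit, rfl⟩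

lemma Mk.ncov (D : WordD 14 7 wa7 lo hi) (C : Cp.Comp 14 t lo hi e) (hgt : GoodTo P r 14)
    (ht : lev t = 0) {z : P} {m b : ℕ} (h : Mk e z m) (hb : b < 30) (hbit : m.testBit b = false) :
    ¬ z ⋖ ce e b := by
  intro hz
  obtain ⟨k, hk, h1, h2⟩ := (h.2 _).mp hz
  rw [(La7_cod D C hgt.H hgt.good ht).inj k hk b hb h2] at h1
  rw [h1] at hbit
  exact absurd hbit (by simp)

lemma Mk.ne (D : WordD 14 7 wa7 lo hi) (C : Cp.Comp 14 t lo hi e) (hgt : GoodTo P r 14)
    (ht : lev t = 0) {z z' : P} {m m' b : ℕ} (h : Mk e z m) (h' : Mk e z' m') (hb : b < 30)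
    (h1 : m.testBit b = true) (h2 : m'.testBit b = false) : z ≠ z' := by
  rintro rfl
  exact h'.ncov D C hgt ht hb h2 (h.cov hb h1)

/-- what is used about a component `La7` -/
structure LaData (e : ℕ → ℕ → P) (t : P) (A : Finset P) (θ : P → ℕ) (ρ : ℤ) : Prop where
  ext : Ext e (lowPart 14 t ∪ A) A θ ρ
  nonneg : 0 ≤ ρ
  pos : (∃ z, Mk e z 570425344) → 0 < ρ
  cost : ∀ z, lev z = 15 → (∀ y, z ⋖ y → y ≤ t) → z ∉ A → ∀ x, z ⋖ x → 26 ≤ ct 7 (θ x + 1) z
  costA : ∀ z, ∀ x ∈ A, z ⋖ x → 26 ≤ ct 7 (θ x + 1) z

/-- the costs of the elements of level 16 -/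
lemma costA_chk : ∀ m ∈ [805306368, 570425344, 33554432], 26 ≤
    min (if m = 33554432 then 3 else 2) 9 + (min (if m = 33554432 then 3 else 2) 8 +
      ∑ b ∈ (range 30).filter (fun b => (orM (fun a => La7um.getD a 0) 30 m).testBit b = true),
        min (if m = 33554432 then 3 else 2) (La7lv.getD b 0 - 7)) := by decide +kernel

section

variable (D : WordD 14 7 wa7 lo hi) (C : Cp.Comp 14 t lo hi e) (hgt : GoodTo P r 14)
  (ht : lev t = 0)

include D C hgt ht in
lemma ext_costA {S A : Finset P} {θ : P → ℕ} {ρ : ℤ} (E : Ext e S A θ ρ) :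
    ∀ z, ∀ x ∈ A, z ⋖ x → 26 ≤ ct 7 (θ x + 1) z := by
  intro z x hx hzx
  obtain ⟨m, hm, hmk, h1, h2⟩ := E.ex x hx
  have h3 := costA_chk m hm
  have h4 := La7_ct D C hgt ht hmk.1 hmk.2 (if m = 33554432 then 3 else 2)
  rw [← h4] at h3
  have hlz := (hgt.H.covBy_iff.mp hzx).2
  have h5 := ct_cov (i := 7) (k := if m = 33554432 then 3 else 2) hzx.1
  rw [hlz, hmk.1] at h5
  have h6 : ct 7 (if m = 33554432 then 3 else 2) z ≤ ct 7 (θ x + 1) z := by
    refine ct_mono le_rfl ?_
    split_ifs with h
    · have := h2 h
      omega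
    · omega
  omega

include D C hgt ht in
/-- the cost of the other elements of level 15 -/
lemma ext_cost {S A : Finset P} {θ : P → ℕ} {ρ : ℤ} (E : Ext e S A θ ρ) {z : P} (hz : lev z = 15)
    (hzt : ∀ y, z ⋖ y → y ≤ t) (h29 : ¬ z ⋖ ce e 29) (h4 : Mk e z 33554432 → 2 ≤ θ (ce e 25)) :
    ∀ x, z ⋖ x → 26 ≤ ct 7 (θ x + 1) z := by
  intro x hzx
  obtain ⟨m, hm, hmk⟩ := La7_msk D C hgt ht hz hzt
  have hmk' : Mk e z m := ⟨hz, hmk⟩
  have hb29 : m.testBit 29 = false := by
    by_contra hcon
    exact h29 (hmk'.cov (by norm_num) (by simpa using hcon))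
  have hx : ∃ a, 25 ≤ a ∧ a < 29 ∧ ce e a = x := by
    obtain ⟨a, ha, hbit, rfl⟩ := (hmk x).mp hzx
    refine ⟨a, ?_, ?_, rfl⟩
    · refine La7_lv14 a ha ?_
      rw [← (La7_le D C ha).2]
      have := (hgt.H.covBy_iff.mp hzx).2
      omega
    · have : a ≠ 29 := by
        rintro rfl
        rw [hb29] at hbit
        exact absurd hbit (by simp)
      omega
  obtain ⟨a, ha1, ha2, rfl⟩ := hx
  have hθ : 1 ≤ θ (ce e a) := by
    rcases Nat.lt_or_ge 25 a with h | h
    · exact E.one a h ha2
    · obtain rfl : a = 25 := by omega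
      exact E.four
  rcases msk_cost m hm hb29 with h5 | h5
  · subst h5
    have h6 := h4 hmk'
    obtain rfl : a = 25 := by
      by_contra hne
      refine hmk'.ncov D C hgt ht (b := a) (by omega) ?_ hzx
      rw [show (33554432 : ℕ) = 2 ^ 25 by norm_num]
      exact Nat.testBit_two_pow_of_ne (Ne.symm hne)
    have h7 := msk_cost4
    have h8 := La7_ct D C hgt ht hz hmk 3
    rw [← h8] at h7
    exact h7.trans (ct_mono le_rfl (by omega))
  · have h8 := La7_ct D C hgt ht hz hmk 2
    rw [← h8] at h5
    exact h5.trans (ct_mono le_rfl (by omega))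

include D C hgt ht in
/-- the children of the first cell -/
lemma kid29 (hp0 : ∀ z, ¬ Mk e z 536870912) {z : P} (hz : lev z = 15)
    (hzt : ∀ y, z ⋖ y → y ≤ t) (h : z ⋖ ce e 29) : Mk e z 805306368 ∨ Mk e z 570425344 := by
  obtain ⟨m, hm, hmk⟩ := La7_msk D C hgt ht hz hzt
  have hmk' : Mk e z m := ⟨hz, hmk⟩
  have h1 : ∀ m ∈ msk, m.testBit 29 = true → m = 536870912 ∨ m = 805306368 ∨ m = 570425344 := by
    decide +kernel
  rcases h1 m hm (by
    by_contra hcon
    exact hmk'.ncov D C hgt ht (by norm_num) (by simpa using hcon) h) with rfl | rfl | rfl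
  · exact absurd hmk' (hp0 z)
  · exact Or.inl hmk'
  · exact Or.inr hmk'

include D C hgt ht in
/-- **The data of a component `La7`.** -/
theorem la7_data (hp0 : ∀ z, ¬ Mk e z 536870912) : ∃ (A : Finset P) (θ : P → ℕ) (ρ : ℤ),
    LaData e t A θ ρ := by
  classical
  have H := hgt.H
  by_cases h04 : ∃ z0, Mk e z0 570425344
  · obtain ⟨z0, h0⟩ := h04
    have c0 := h0.cov (b := 29) (by norm_num) (by decide +kernel)
    have d0 := h0.cov (b := 25) (by norm_num) (by decide +kernel)
    -- from a pattern to the data
    have fin : ∀ (A : Finset P) (ρ : ℤ), 0 < ρ → (∀ z, z ∈ A ↔ Mk e z 570425344 ∨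
        Mk e z 33554432 ∨ Mk e z 805306368) → (∃ θ : P → ℕ, Ext e (lowPart 14 t ∪ A) A θ ρ) →
        ∃ (A : Finset P) (θ : P → ℕ) (ρ : ℤ), LaData e t A θ ρ := by
      rintro A ρ hρ hA ⟨θ, E⟩
      refine ⟨A, θ, ρ, E, hρ.le, fun _ => hρ, ?_, ext_costA D C hgt ht E⟩
      intro z hz hzt hzA
      rw [hA] at hzA
      push Not at hzA
      refine ext_cost D C hgt ht E hz hzt ?_ (fun h => absurd h hzA.2.1)
      intro h
      rcases kid29 D C hgt ht hp0 hz hzt h with h1 | h1
      · exact hzA.2.2 h1
      · exact hzA.1 h1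
    by_cases h04' : ∃ z1, Mk e z1 570425344 ∧ z0 ≠ z1
    · obtain ⟨z1, h1, hne⟩ := h04'
      have c1 := h1.cov (b := 29) (by norm_num) (by decide +kernel)
      have d1 := h1.cov (b := 25) (by norm_num) (by decide +kernel)
      refine fin {z0, z1} 2 (by norm_num) ?_ (pat_f D C hgt ht h0 h1 hne fun x => by simp)
      intro z
      rw [mem_insert, mem_singleton]
      constructor
      · rintro (rfl | rfl)
        · exact Or.inl h0
        · exact Or.inl h1
      · intro h
        by_contra hcon
        push Not at hcon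
        rcases h with h | h | h
        · exact dc_three H c0 c1 (h.cov (b := 29) (by norm_num) (by decide +kernel)) hne
            (Ne.symm hcon.1) (Ne.symm hcon.2)
        · exact dc_three H d0 d1 (h.cov (b := 25) (by norm_num) (by decide +kernel)) hne
            (Ne.symm hcon.1) (Ne.symm hcon.2)
        · exact dc_three H c0 c1 (h.cov (b := 29) (by norm_num) (by decide +kernel)) hne
            (Ne.symm hcon.1) (Ne.symm hcon.2)
    · have u0 : ∀ z, Mk e z 570425344 → z = z0 := by
        intro z h
        by_contra hne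
        exact h04' ⟨z, h, Ne.symm hne⟩
      have hA4 : ∀ z z', Mk e z 33554432 → Mk e z' 33554432 → z = z' := by
        intro z z' h h'
        by_contra hne
        exact dc_three H d0 (h.cov (b := 25) (by norm_num) (by decide +kernel))
          (h'.cov (b := 25) (by norm_num) (by decide +kernel))
          (h0.ne D C hgt ht h (b := 29) (by norm_num) (by decide +kernel) (by decide +kernel))
          (h0.ne D C hgt ht h' (b := 29) (by norm_num) (by decide +kernel) (by decide +kernel)) hne
      have hA1 : ∀ z z', Mk e z 805306368 → Mk e z' 805306368 → z = z' := by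
        intro z z' h h'
        by_contra hne
        exact dc_three H c0 (h.cov (b := 29) (by norm_num) (by decide +kernel))
          (h'.cov (b := 29) (by norm_num) (by decide +kernel))
          (h0.ne D C hgt ht h (b := 25) (by norm_num) (by decide +kernel) (by decide +kernel))
          (h0.ne D C hgt ht h' (b := 25) (by norm_num) (by decide +kernel) (by decide +kernel)) hne
      by_cases h4 : ∃ z1, Mk e z1 33554432
      · obtain ⟨z1, h4⟩ := h4
        have n01 : z0 ≠ z1 := h0.ne D C hgt ht h4 (b := 29) (by norm_num) (by decide +kernel)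
          (by decide +kernel)
        by_cases h1 : ∃ z2, Mk e z2 805306368
        · obtain ⟨z2, h1⟩ := h1
          have n02 : z0 ≠ z2 := h0.ne D C hgt ht h1 (b := 25) (by norm_num) (by decide +kernel)
            (by decide +kernel)
          have n12 : z1 ≠ z2 := h4.ne D C hgt ht h1 (b := 25) (by norm_num) (by decide +kernel)
            (by decide +kernel)
          refine fin {z0, z1, z2} 1 (by norm_num) ?_
            (pat_h D C hgt ht h0 h4 h1 n01 n02 n12 fun x => by simp)
          intro z
          rw [mem_insert, mem_insert, mem_singleton]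
          constructor
          · rintro (rfl | rfl | rfl)
            · exact Or.inl h0
            · exact Or.inr (Or.inl h4)
            · exact Or.inr (Or.inr h1)
          · rintro (h | h | h)
            · exact Or.inl (u0 z h)
            · exact Or.inr (Or.inl (hA4 z z1 h h4))
            · exact Or.inr (Or.inr (hA1 z z2 h h1))
        · refine fin {z0, z1} 1 (by norm_num) ?_ (pat_d D C hgt ht h0 h4 n01 fun x => by simp)
          intro z
          rw [mem_insert, mem_singleton]
          constructor
          · rintro (rfl | rfl)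
            · exact Or.inl h0
            · exact Or.inr (Or.inl h4)
          · rintro (h | h | h)
            · exact Or.inl (u0 z h)
            · exact Or.inr (hA4 z z1 h h4)
            · exact absurd ⟨z, h⟩ h1
      · by_cases h1 : ∃ z2, Mk e z2 805306368
        · obtain ⟨z2, h1⟩ := h1
          have n02 : z0 ≠ z2 := h0.ne D C hgt ht h1 (b := 25) (by norm_num) (by decide +kernel)
            (by decide +kernel)
          refine fin {z0, z2} 1 (by norm_num) ?_ (pat_c D C hgt ht h0 h1 n02 fun x => by simp)
          intro z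
          rw [mem_insert, mem_singleton]
          constructor
          · rintro (rfl | rfl)
            · exact Or.inl h0
            · exact Or.inr (Or.inr h1)
          · rintro (h | h | h)
            · exact Or.inl (u0 z h)
            · exact absurd ⟨z, h⟩ h4
            · exact Or.inr (hA1 z z2 h h1)
        · refine fin {z0} 1 (by norm_num) ?_ (pat_b D C hgt ht h0 fun x => by simp)
          intro z
          rw [mem_singleton]
          constructor
          · rintro rfl
            exact Or.inl h0
          · rintro (h | h | h)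
            · exact u0 z h
            · exact absurd ⟨z, h⟩ h4
            · exact absurd ⟨z, h⟩ h1
  · -- no element below the ends
    have fin : ∀ (A : Finset P), (∀ z, z ∈ A ↔ Mk e z 805306368) →
        (∃ θ : P → ℕ, Ext e (lowPart 14 t ∪ A) A θ 0 ∧ 2 ≤ θ (ce e 25)) →
        ∃ (A : Finset P) (θ : P → ℕ) (ρ : ℤ), LaData e t A θ ρ := by
      rintro A hA ⟨θ, E, h25⟩
      refine ⟨A, θ, 0, E, le_rfl, fun h => absurd h h04, ?_, ext_costA D C hgt ht E⟩
      intro z hz hzt hzA
      rw [hA] at hzA
      refine ext_cost D C hgt ht E hz hzt ?_ (fun _ => h25)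
      intro h
      rcases kid29 D C hgt ht hp0 hz hzt h with h1 | h1
      · exact hzA h1
      · exact h04 ⟨z, h1⟩
    by_cases h1 : ∃ z0, Mk e z0 805306368
    · obtain ⟨z0, h0⟩ := h1
      by_cases h2 : ∃ z1, Mk e z1 805306368 ∧ z0 ≠ z1
      · obtain ⟨z1, h1, hne⟩ := h2
        refine fin {z0, z1} ?_ (pat_a D C hgt ht (K := 2) (by norm_num) (z := two z0 z1)
          (two_inj hne) (fun k hk => by
            obtain rfl | rfl : k = 0 ∨ k = 1 := by omega
            · exact h0
            · exact h1) (fun x => by
              rw [mem_insert, mem_singleton]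
              exact two_mem))
        intro z
        rw [mem_insert, mem_singleton]
        constructor
        · rintro (rfl | rfl)
          · exact h0
          · exact h1
        · intro h
          by_contra hcon
          push Not at hcon
          exact dc_three H (h0.cov (b := 29) (by norm_num) (by decide +kernel))
            (h1.cov (b := 29) (by norm_num) (by decide +kernel))
            (h.cov (b := 29) (by norm_num) (by decide +kernel)) hne
            (Ne.symm hcon.1) (Ne.symm hcon.2)
      · refine fin {z0} ?_ (pat_a D C hgt ht (K := 1) (by norm_num) (z := fun _ => z0)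
          (fun a ha b hb _ => by omega) (fun _ _ => h0) (fun x => by
            rw [mem_singleton]
            exact ⟨fun h => ⟨0, by norm_num, h.symm⟩, fun ⟨_, _, h⟩ => h.symm⟩))
        intro z
        rw [mem_singleton]
        constructor
        · rintro rfl
          exact h0
        · intro h
          by_contra hne
          exact h2 ⟨z, h, Ne.symm hne⟩
    · refine fin ∅ ?_ (pat_a D C hgt ht (K := 0) (by norm_num) (z := fun _ => t)
          (fun a ha => absurd ha (by omega)) (fun k hk => absurd hk (by omega)) (fun x => by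
            simp))
      intro z
      constructor
      · intro h
        exact absurd h (Finset.notMem_empty z)
      · intro h
        exact absurd ⟨z, h⟩ h1

end

end Pool.Agent.GaussPoset.Sg
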