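import Pool.Agent.W_448s14_h94.SgJ
import Pool.Agent.W_448dd_h67.DdJ

/-!
Level 14, window 7: there are no pendants below thin elements (energy 8).
-/

namespace Pool.Agent.GaussPoset.Sg

set_option linter.unusedSectionVars false

open Polynomial Finset Cl Dd Wd Win

universe u

variable {P : Type u} [Fintype P] [PartialOrder P] [DecidableEq P] {r : ℕ}

/-- a thin element of level 14: one element above of the levels 8 to 14, two of level 7 -/
def Thin (x : P) : Prop := (∀ k, 8 ≤ k → k ≤ 14 → nab k x = 1) ∧ nab 7 x = 2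

/-- the elements of level above 14 -/
noncomputable def R14 (P : Type u) [Fintype P] [PartialOrder P] : Finset P := by
  classical exact univ.filter (fun x => 14 < lev x)

lemma mem_R14 {x : P} : x ∈ R14 P ↔ 14 < lev x := by
  classical
  unfold R14
  simp

lemma R14_low : ∀ x y : P, x ≤ y → y ∈ R14 P → x ∈ R14 P := by
  intro x y hxy hy
  rw [mem_R14] at hy ⊢
  rcases eq_or_lt_of_le hxy with h | h
  · rw [h]; exact hy
  · have := lev_strictAnti h; omega

lemma R14_lev : ∀ x ∈ R14 P, 7 < lev x := by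
  intro x hx
  rw [mem_R14] at hx
  omega

/-- natural sets which contain the strip, costs of the elements of level 15 at least `c0` except
below thin elements -/
structure Nt (t : Tops P) (b : ℕ) (N : Finset P) (θ : P → ℕ) (B : P → Prop) (c0 : ℕ) : Prop where
  nt : NatTop 7 t b N θ B
  strip : lowPart 14 (t : P) ⊆ N
  base : ∀ x ∈ N, B x → lev x ≤ 14
  cost : ∀ x ≤ (t : P), lev x = 14 → c0 ≤ ct 7 (θ x + 1) x + min (θ x + 1) 8 ∨
    (θ x = 0 ∧ Thin x)
  one : 1 ≤ b

/-- the context -/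
structure C7 (r : ℕ) (N : Tops P → Finset P) (b : Tops P → ℕ) (θ : Tops P → P → ℕ)
    (B : Tops P → P → Prop) : Prop where
  gt : GoodTo P r 14
  typ : ∀ t, Nt t (b t) (N t) (θ t) (B t) 9
  sum_b : ∑ t, b t = (lv P 7).card

variable {N : Tops P → Finset P} {b : Tops P → ℕ} {θ : Tops P → P → ℕ} {B : Tops P → P → Prop}

lemma C7.natSys (W : C7 r N b θ B) : NatSys N := natSys_of_tops fun t => (W.typ t).nt

lemma C7.low (W : C7 r N b θ B) {x : P} (hx : lev x ≤ 14) : x ∈ N (topOf x) :=
  (W.typ _).strip (mem_lowPart.mpr ⟨le_topOf x, hx⟩)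

lemma C7.unnat_sub (W : C7 r N b θ B) : unnat N ⊆ R14 P := by
  intro x hx
  rw [mem_R14]
  by_contra hcon
  exact mem_unnat.mp hx (topOf x) (W.low (by omega))

lemma C7.cp (W : C7 r N b θ B) {x y : P} (hxy : x ≤ y) (hx : x ∉ R14 P) : topOf x = topOf y :=
  W.natSys.cp x y hxy fun h => hx (W.unnat_sub h)

lemma C7.not_BA (W : C7 r N b θ B) : ∀ x ∈ R14 P, ¬ Dd.BA N B x := by
  rintro x hx ⟨h1, h2⟩
  rw [mem_R14] at hx
  have hxN : x ∈ N (topOf x) := W.natSys.mem_iff.mpr ⟨h1, rfl⟩
  have := (W.typ (topOf x)).base x hxN h2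
  omega

theorem C7.compL (W : C7 r N b θ B) (t : Tops P) :
    CompDataL (R14 P) topOf t 7 (b t) 9 (Dd.thA θ) (Dd.BA N B) := by
  have HN := W.natSys
  have h6 : CompData (unnat N) topOf t 7 (b t) (Dd.thA θ) (Dd.BA N B) := by
    refine (W.typ t).nt.data N HN rfl _ _ ?_ ?_
    · intro x hx
      show θ (topOf x) x = _
      rw [HN.topOf_eq hx]
    · intro x hx
      unfold Dd.BA
      simp only [HN.topOf_eq hx, (HN.mem_iff.mp hx).1, not_false_eq_true, true_and]
  exact CompDataL.of (CompData.mono h6 W.unnat_sub) 9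

/-- the label one, level 15 -/
lemma ct_one {z : P} (hl : lev z = 15) : ct 7 1 z =
    nab 8 z + nab 9 z + nab 10 z + nab 11 z + nab 12 z + nab 13 z + nab 14 z + 1 := by
  unfold ct
  rw [cst_eq, hl]
  have h := nab_self (z := z)
  rw [hl] at h
  simp only [Finset.sum_range_succ, Finset.sum_range_zero, h]
  norm_num

/-- the costs of the boundary elements -/
theorem C7.cost (W : C7 r N b θ B) {z : P} (hz : z ∈ bdR (R14 P)) :
    9 ≤ cst 7 (hcan (R14 P) (Dd.thA θ)) z ∨ (cst 7 (hcan (R14 P) (Dd.thA θ)) z = 8 ∧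
      hcan (R14 P) (Dd.thA θ) z = 1 ∧ nab 7 z = 2 ∧ nab 8 z = 1) := by
  classical
  have H := W.gt.H
  obtain ⟨x, hx, hzx, hh⟩ := hcan_spec (θ := Dd.thA θ) hz
  have hh' : hcan (R14 P) (Dd.thA θ) z = θ (topOf x) x + 1 := hh
  have hzR : 14 < lev z := mem_R14.mp (mem_filter.mp hz).1
  have hlx : ¬ 14 < lev x := fun h => hx (mem_R14.mpr h)
  have hzl := (H.covBy_iff.mp hzx).2
  have hlx14 : lev x = 14 := by omega
  have hlz : lev z = 15 := by omega
  rw [cst_ct (i := 7) hh', hh']
  rcases (W.typ (topOf x)).cost x (le_topOf x) hlx14 with h1 | ⟨h1, h2, h3⟩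
  · left
    have h5 := ct_cov (i := 7) (k := θ (topOf x) x + 1) hzx.1
    rw [hlz] at h5
    omega
  · rw [h1, Nat.zero_add, ct_one hlz]
    have hge : ∀ k, 8 ≤ k → k ≤ 14 → 1 ≤ nab k z := fun k _ hk => one_le_nab (by omega)
    by_cases hp : ∀ y, z ⋖ y → y = x
    · right
      have hn : ∀ k, k ≤ 14 → nab k z = nab k x := fun k hk =>
        nab_pend (⟨hzx, hp⟩ : Pend z x) (by omega)
      rw [hn 7 (by omega), hn 8 (by omega), hn 9 (by omega), hn 10 (by omega), hn 11 (by omega),
        hn 12 (by omega), hn 13 (by omega), hn 14 (by omega), h3, h2 8 (by omega) (by omega),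
        h2 9 (by omega) (by omega), h2 10 (by omega) (by omega), h2 11 (by omega) (by omega),
        h2 12 (by omega) (by omega), h2 13 (by omega) (by omega), h2 14 (by omega) (by omega)]
      norm_num
    · left
      push Not at hp
      obtain ⟨y, hzy, hyx⟩ := hp
      have hly := (H.covBy_iff.mp hzy).2
      have h4 : 2 ≤ nab 14 z :=
        two_le_nab hzx.le hzy.le hlx14 (by omega) (Ne.symm hyx)
      have g1 := hge 8 (by omega) (by omega)
      have g2 := hge 9 (by omega) (by omega)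
      have g3 := hge 10 (by omega) (by omega)
      have g4 := hge 11 (by omega) (by omega)
      have g5 := hge 12 (by omega) (by omega)
      have g6 := hge 13 (by omega) (by omega)
      omega

/-- **No pendants below thin elements.** -/
theorem C7.no_thin (W : C7 r N b θ B) {z x : P} (hl : lev z = 15) (hp : Pend z x)
    (h0 : θ (topOf x) x = 0) (ht : Thin x) : False := by
  classical
  have H := W.gt.H
  have hzx := hp.1
  have hzl := (H.covBy_iff.mp hzx).2
  have hxR : x ∉ R14 P := fun h => by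
    have := mem_R14.mp h
    omega
  have hz : z ∈ bdR (R14 P) := mem_filter.mpr ⟨mem_R14.mpr (by omega), x, hxR, hzx⟩
  have HT : FarT P 7 (R14 P) (∑ t, b t) (hcan (R14 P) (Dd.thA θ)) 9 :=
    farT_L R14_low R14_lev topOf (fun x y hxy hx => W.cp hxy hx) b (Dd.thA θ) (Dd.BA N B)
      W.not_BA W.compL H.gradedBelow
  have hz8 : cst 7 (hcan (R14 P) (Dd.thA θ)) z = 8 := by
    have h1 : hcan (R14 P) (Dd.thA θ) z = 1 := by
      have h2 := hcan_le (θ := Dd.thA θ) hxR hzx
      have h3 : Dd.thA θ x = 0 := h0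
      have h4 := HT.one_le z hz
      omega
    rw [cst_ct (i := 7) h1, ct_one hl]
    have hn : ∀ k, k ≤ 14 → nab k z = nab k x := fun k hk => nab_pend hp (by omega)
    rw [hn 8 (by omega), hn 9 (by omega), hn 10 (by omega), hn 11 (by omega),
      hn 12 (by omega), hn 13 (by omega), hn 14 (by omega), ht.1 8 (by omega) (by omega),
      ht.1 9 (by omega) (by omega), ht.1 10 (by omega) (by omega), ht.1 11 (by omega) (by omega),
      ht.1 12 (by omega) (by omega), ht.1 13 (by omega) (by omega), ht.1 14 (by omega) (by omega)]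
  have h1 := HT.dvd_lead (n := 8) (by omega) (by
    intro w hw
    have := W.cost hw
    omega)
  rw [W.sum_b] at h1
  have h2 := dvd_Z H.gauss 7 8
  have h3 := dvd_sub h2 h1
  rw [sub_sub_cancel] at h3
  set S := (bdR (R14 P)).filter (fun z => cst 7 (hcan (R14 P) (Dd.thA θ)) z = 8) with hS
  have hzS : z ∈ S := mem_filter.mpr ⟨hz, hz8⟩
  have hB : 2 ≤ (lv P 7).card := by
    have h5 := nab_le z 7
    have h6 : nab 7 z = nab 7 x := nab_pend hp (by omega)
    have := ht.2
    omega
  obtain ⟨c, hc⟩ : ∃ c, (lv P 7).card = c + 1 := ⟨(lv P 7).card - 1, by omega⟩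
  have hLt : ∀ w ∈ S, Lt 7 (hcan (R14 P) (Dd.thA θ)) w = X ^ (below P 7 + 2) * (1 + X) ^ c := by
    intro w hw
    obtain ⟨hw1, hw2⟩ := mem_filter.mp hw
    obtain ⟨-, g2, g3, g4⟩ := (W.cost hw1).resolve_left (by omega)
    unfold Lt
    rw [nst_one g2, g3, g2, g4, hc]
    congr 2
  rw [Finset.sum_congr rfl hLt, Finset.sum_const, hc, pow_succ, nsmul_eq_mul,
    ← mul_assoc, mul_comm _ ((1 + X : ℤ[X]) ^ c)] at h3
  obtain ⟨w, hw⟩ := (mul_dvd_mul_iff_left (one_add_X_pow_ne c)).mp h3
  have h4 := congrArg (fun f : ℤ[X] => f.eval (-1)) hw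
  simp only [eval_mul, eval_natCast, eval_pow, eval_X, eval_add, eval_one] at h4
  rw [add_neg_cancel, zero_mul] at h4
  have h5 : (S.card : ℤ) ≠ 0 := by
    have := Finset.card_pos.mpr ⟨z, hzS⟩
    omega
  exact mul_ne_zero h5 (pow_ne_zero _ (by norm_num)) h4

end Pool.Agent.GaussPoset.Sg
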